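import Pool.Agent.helper26.PS.Quad

/-!
The abstract second order condition.
-/

namespace Pool.Agent.helper26.PS

open MeasureTheory unitInterval
open scoped NNReal ENNReal

lemma cont_bdd {X : Type*} [TopologicalSpace X] [CompactSpace X] {k : X → ℝ}
    (hk : Continuous k) : ∃ M : ℝ, ∀ z, |k z| ≤ M := by
  obtain ⟨M, hM⟩ := isCompact_univ.exists_bound_of_continuousOn hk.continuousOn
  exact ⟨M, fun z => by simpa using hM z (Set.mem_univ z)⟩

lemma integrable_of_abs_le {X : Type*} [MeasurableSpace X] {μ : Measure X} [IsFiniteMeasure μ]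
    {f : X → ℝ} (hf : Measurable f) {M : ℝ} (hM : ∀ x, |f x| ≤ M) : Integrable f μ :=
  Integrable.of_bound hf.aestronglyMeasurable M (Filter.Eventually.of_forall fun x => by
    simpa using hM x)

/-- probability measure with density `ρ` -/
noncomputable def dens (ν : Measure I) (ρ : I → ℝ) : Measure I :=
  ν.withDensity fun x => ((ρ x).toNNReal : ℝ≥0∞)

lemma integral_dens (ν : Measure I) {ρ : I → ℝ} (hρ : Measurable ρ) (h0 : ∀ x, 0 ≤ ρ x)
    (f : I → ℝ) : ∫ x, f x ∂(dens ν ρ) = ∫ x, ρ x * f x ∂ν := by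
  unfold dens
  rw [integral_withDensity_eq_integral_smul hρ.real_toNNReal]
  refine integral_congr_ae (Filter.Eventually.of_forall fun x => ?_)
  simp only [NNReal.smul_def, smul_eq_mul]
  rw [Real.coe_toNNReal _ (h0 x)]

lemma integral_dens_prod (ν : Measure I) [SFinite ν] {ρ : I → ℝ} (hρ : Measurable ρ)
    (h0 : ∀ x, 0 ≤ ρ x) (f : I × I → ℝ) :
    ∫ z, f z ∂((dens ν ρ).prod (dens ν ρ)) = ∫ z, ρ z.1 * ρ z.2 * f z ∂(ν.prod ν) := by
  unfold dens
  rw [prod_withDensity (by fun_prop) (by fun_prop)]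
  have e : (fun z : I × I => ((ρ z.1).toNNReal : ℝ≥0∞) * ((ρ z.2).toNNReal : ℝ≥0∞))
      = fun z : I × I => (((ρ z.1).toNNReal * (ρ z.2).toNNReal : ℝ≥0) : ℝ≥0∞) := by
    funext z; push_cast; rfl
  rw [e, integral_withDensity_eq_integral_smul (by fun_prop)]
  refine integral_congr_ae (Filter.Eventually.of_forall fun x => ?_)
  simp only [NNReal.smul_def, smul_eq_mul, NNReal.coe_mul]
  rw [Real.coe_toNNReal _ (h0 _), Real.coe_toNNReal _ (h0 _)]

lemma isProb_dens (ν : Measure I) [IsProbabilityMeasure ν] {ρ : I → ℝ} (hρ : Measurable ρ)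
    (h0 : ∀ x, 0 ≤ ρ x) {M : ℝ} (hM : ∀ x, |ρ x| ≤ M) (h1 : ∫ x, ρ x ∂ν = 1) :
    IsProbabilityMeasure (dens ν ρ) := by
  constructor
  unfold dens
  rw [withDensity_apply _ MeasurableSet.univ, Measure.restrict_univ]
  have h := ofReal_integral_eq_lintegral_ofReal (μ := ν) (f := ρ)
    (integrable_of_abs_le hρ hM) (Filter.Eventually.of_forall h0)
  have e : (∫⁻ x, ((ρ x).toNNReal : ℝ≥0∞) ∂ν) = ∫⁻ x, ENNReal.ofReal (ρ x) ∂ν := rfl
  rw [e, ← h, h1]
  simp

section
variable (ν : Measure I) [IsProbabilityMeasure ν]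

lemma expand2 {k : I × I → ℝ} (hk : Continuous k) {φ : I → ℝ} (hφ : Measurable φ) {K : ℝ}
    (hK : ∀ x, |φ x| ≤ K) (t : ℝ) :
    ∫ z, (1 + t * φ z.1) * (1 + t * φ z.2) * k z ∂(ν.prod ν) =
      ∫ z, k z ∂(ν.prod ν) + t * (∫ z, k z * φ z.1 ∂(ν.prod ν) + ∫ z, k z * φ z.2 ∂(ν.prod ν))
        + t ^ 2 * ∫ z, k z * (φ z.1 * φ z.2) ∂(ν.prod ν) := by
  obtain ⟨M, hM⟩ := cont_bdd hk
  have i0 : Integrable (fun z => k z) (ν.prod ν) := integrable_of_abs_le hk.measurable hM
  have i1 : Integrable (fun z : I × I => k z * φ z.1) (ν.prod ν) :=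
    integrable_of_abs_le (hk.measurable.mul (hφ.comp measurable_fst)) (M := M * K) fun z => by
      rw [abs_mul]
      exact mul_le_mul (hM z) (hK _) (abs_nonneg _) ((abs_nonneg _).trans (hM z))
  have i2 : Integrable (fun z : I × I => k z * φ z.2) (ν.prod ν) :=
    integrable_of_abs_le (hk.measurable.mul (hφ.comp measurable_snd)) (M := M * K) fun z => by
      rw [abs_mul]
      exact mul_le_mul (hM z) (hK _) (abs_nonneg _) ((abs_nonneg _).trans (hM z))
  have i3 : Integrable (fun z : I × I => k z * (φ z.1 * φ z.2)) (ν.prod ν) :=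
    integrable_of_abs_le (hk.measurable.mul ((hφ.comp measurable_fst).mul
      (hφ.comp measurable_snd))) (M := M * (K * K)) fun z => by
      rw [abs_mul, abs_mul]
      exact mul_le_mul (hM z) (mul_le_mul (hK _) (hK _) (abs_nonneg _)
        ((abs_nonneg _).trans (hK z.1))) (by positivity) ((abs_nonneg _).trans (hM z))
  have e : (fun z : I × I => (1 + t * φ z.1) * (1 + t * φ z.2) * k z) =
      fun z => (k z + t * (k z * φ z.1 + k z * φ z.2)) + t ^ 2 * (k z * (φ z.1 * φ z.2)) := by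
    funext z; ring
  have i12 : Integrable (fun z : I × I => k z * φ z.1 + k z * φ z.2) (ν.prod ν) := i1.add i2
  have i12t : Integrable (fun z : I × I => t * (k z * φ z.1 + k z * φ z.2)) (ν.prod ν) :=
    i12.const_mul t
  have i012 : Integrable (fun z : I × I => k z + t * (k z * φ z.1 + k z * φ z.2)) (ν.prod ν) :=
    i0.add i12t
  rw [e, integral_add i012 (i3.const_mul _), integral_add i0 i12t, integral_const_mul,
    integral_const_mul, integral_add i1 i2]

lemma expand1 {c : I → ℝ} (hc : Continuous c) {φ : I → ℝ} (hφ : Measurable φ) {K : ℝ}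
    (hK : ∀ x, |φ x| ≤ K) (t : ℝ) :
    ∫ x, (1 + t * φ x) * c x ∂ν = ∫ x, c x ∂ν + t * ∫ x, c x * φ x ∂ν := by
  obtain ⟨M, hM⟩ := cont_bdd hc
  have i0 : Integrable (fun z => c z) ν := integrable_of_abs_le hc.measurable hM
  have i1 : Integrable (fun z : I => c z * φ z) ν :=
    integrable_of_abs_le (hc.measurable.mul hφ) (M := M * K) fun z => by
      rw [abs_mul]
      exact mul_le_mul (hM z) (hK _) (abs_nonneg _) ((abs_nonneg _).trans (hM z))
  have e : (fun z : I => (1 + t * φ z) * c z) = fun z => c z + t * (c z * φ z) := by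
    funext z; ring
  rw [e, integral_add i0 (i1.const_mul t), integral_const_mul]

lemma integral_swap_symm {k : I × I → ℝ} (hs : ∀ x y, k (x, y) = k (y, x)) (φ : I → ℝ) :
    ∫ z, k z * φ z.2 ∂(ν.prod ν) = ∫ z, k z * φ z.1 ∂(ν.prod ν) := by
  have h := integral_prod_swap (μ := ν) (ν := ν) (fun z : I × I => k z * φ z.1)
  rw [← h]
  refine integral_congr_ae (Filter.Eventually.of_forall fun z => ?_)
  simp only [Prod.swap]
  rw [hs z.2 z.1]

/-- the second order condition -/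
theorem second_order {ℓ e : I × I → ℝ} {c0 : I → ℝ} (hℓ : Continuous ℓ) (he : Continuous e)
    (hc : Continuous c0) (hes : ∀ x y, e (x, y) = e (y, x)) {ε C : ℝ}
    (hε : ∫ z, e z ∂(ν.prod ν) = ε) (hC : 0 ≤ C)
    (KEY : ∀ ν' : Measure I, IsProbabilityMeasure ν' →
      (1 / 2) * ∫ z, ℓ z ∂(ν'.prod ν') - ∫ x, c0 x ∂ν' ≤
        (1 / 2) * ∫ z, ℓ z ∂(ν.prod ν) - ∫ x, c0 x ∂ν + C * (∫ z, e z ∂(ν'.prod ν') - ε) ^ 2)
    {φ : I → ℝ} (hφ : Measurable φ) {K : ℝ} (hK : ∀ x, |φ x| ≤ K) (h0 : ∫ x, φ x ∂ν = 0) :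
    ∫ z, ℓ z * (φ z.1 * φ z.2) ∂(ν.prod ν) ≤
      8 * C * (∫ z, e z * φ z.1 ∂(ν.prod ν)) ^ 2 := by
  set q := ∫ z, ℓ z * (φ z.1 * φ z.2) ∂(ν.prod ν) with hq
  set γ := ∫ z, e z * φ z.1 ∂(ν.prod ν) with hγ
  set R := ∫ z, e z * (φ z.1 * φ z.2) ∂(ν.prod ν) with hR
  have hK0 : 0 ≤ K := (abs_nonneg _).trans (hK 0)
  have step : ∀ θ : ℝ, 0 < θ → θ ≤ 1 / (K + 1) → q ≤ 8 * C * γ ^ 2 + 2 * C * R ^ 2 * θ ^ 2 := by
    intro θ hθ hθ1
    have hθK : θ * K ≤ 1 := by
      have : θ * K ≤ 1 / (K + 1) * K := by gcongr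
      refine this.trans ?_
      rw [one_div, inv_mul_le_iff₀ (by linarith)]
      linarith
    have main : ∀ s : ℝ, (s = θ ∨ s = -θ) →
        (1 / 2) * (∫ z, ℓ z ∂(ν.prod ν) +
            s * (∫ z, ℓ z * φ z.1 ∂(ν.prod ν) + ∫ z, ℓ z * φ z.2 ∂(ν.prod ν)) + s ^ 2 * q)
          - (∫ x, c0 x ∂ν + s * ∫ x, c0 x * φ x ∂ν) ≤
        (1 / 2) * ∫ z, ℓ z ∂(ν.prod ν) - ∫ x, c0 x ∂ν + C * (2 * s * γ + s ^ 2 * R) ^ 2 := by
      intro s hs
      have hsabs : |s| = θ := by
        rcases hs with h | h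
        · rw [h, abs_of_pos hθ]
        · rw [h, abs_neg, abs_of_pos hθ]
      have hb : ∀ x, |s * φ x| ≤ 1 := fun x => by
        rw [abs_mul, hsabs]
        exact (mul_le_mul_of_nonneg_left (hK x) hθ.le).trans hθK
      have hρ0 : ∀ x, 0 ≤ 1 + s * φ x := fun x => by
        have := neg_abs_le (s * φ x)
        linarith [hb x]
      have hρm : Measurable fun x => 1 + s * φ x := (hφ.const_mul s).const_add 1
      have hρM : ∀ x, |1 + s * φ x| ≤ 2 := fun x => by
        rw [abs_of_nonneg (hρ0 x)]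
        have := le_abs_self (s * φ x)
        linarith [hb x]
      have iφ : Integrable φ ν := integrable_of_abs_le hφ hK
      have hρ1 : ∫ x, (1 + s * φ x) ∂ν = 1 := by
        rw [integral_add (integrable_const _) (iφ.const_mul s), integral_const_mul, h0]
        simp
      have hprob := isProb_dens ν hρm hρ0 hρM hρ1
      have k := KEY _ hprob
      rw [integral_dens_prod ν hρm hρ0, integral_dens_prod ν hρm hρ0, integral_dens ν hρm hρ0,
        expand2 ν hℓ hφ hK s, expand2 ν he hφ hK s, expand1 ν hc hφ hK s,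
        integral_swap_symm ν hes φ, hε] at k
      have e2 : (ε + s * (∫ z, e z * φ z.1 ∂(ν.prod ν) + ∫ z, e z * φ z.1 ∂(ν.prod ν))
          + s ^ 2 * ∫ z, e z * (φ z.1 * φ z.2) ∂(ν.prod ν) - ε) = 2 * s * γ + s ^ 2 * R := by
        rw [hγ, hR]; ring
      rw [e2] at k
      exact k
    have m1 := main θ (Or.inl rfl)
    have m2 := main (-θ) (Or.inr rfl)
    have hsum : θ ^ 2 * q ≤ θ ^ 2 * (8 * C * γ ^ 2 + 2 * C * R ^ 2 * θ ^ 2) := by
      nlinarith [m1, m2]
    exact le_of_mul_le_mul_left hsum (by positivity)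
  by_contra hcon
  push Not at hcon
  set gap := q - 8 * C * γ ^ 2 with hgap
  have hg : 0 < gap := by rw [hgap]; linarith
  set D := 2 * C * R ^ 2 with hD
  have hD0 : 0 ≤ D := by positivity
  set θ := min (1 / (K + 1)) (min 1 (gap / (2 * (D + 1)))) with hθ
  have hθ0 : 0 < θ := by
    rw [hθ]
    refine lt_min (by positivity) (lt_min one_pos (by positivity))
  have t1 : θ ≤ 1 := (min_le_right _ _).trans (min_le_left _ _)
  have t2 : θ ≤ gap / (2 * (D + 1)) := (min_le_right _ _).trans (min_le_right _ _)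
  have h := step θ hθ0 (min_le_left _ _)
  have h2 : D * θ ^ 2 ≤ gap / 2 := by
    calc D * θ ^ 2 ≤ (D + 1) * θ := by nlinarith
      _ ≤ (D + 1) * (gap / (2 * (D + 1))) := by gcongr
      _ = gap / 2 := by field_simp
  have : gap ≤ D * θ ^ 2 := by rw [hgap, hD]; linarith
  linarith

end

end Pool.Agent.helper26.PS
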