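import Pool.Agent.helper26.PS.Abs

/-!
The second order condition at finitely many points of the support.
-/

namespace Pool.Agent.helper26.PS

open MeasureTheory unitInterval
open scoped NNReal ENNReal

section
variable (ν : Measure I) [IsProbabilityMeasure ν]

/-- the normalised indicator of `B` -/
noncomputable def bump (B : Set I) : I → ℝ := B.indicator fun _ => (ν.real B)⁻¹

lemma bump_nonneg (B : Set I) (x : I) : 0 ≤ bump ν B x :=
  Set.indicator_nonneg (fun _ _ => inv_nonneg.2 measureReal_nonneg) x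

lemma bump_abs_le (B : Set I) (x : I) : |bump ν B x| ≤ (ν.real B)⁻¹ := by
  rw [abs_of_nonneg (bump_nonneg ν B x)]
  unfold bump
  exact Set.indicator_le_self' (fun _ _ => inv_nonneg.2 measureReal_nonneg) x

lemma measurable_bump {B : Set I} (hB : MeasurableSet B) : Measurable (bump ν B) :=
  measurable_const.indicator hB

lemma integral_bump {B : Set I} (hB : MeasurableSet B) (h : 0 < ν.real B) :
    ∫ x, bump ν B x ∂ν = 1 := by
  unfold bump
  rw [integral_indicator_const _ hB, smul_eq_mul]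
  field_simp

lemma one_bump {g : I → ℝ} {η : ℝ} {A : Set I} {c u : ℝ}
    (h : ∀ z : I, z ∈ A → |g z - u| ≤ η) (z : I) :
    |c * (g z * bump ν A z) - c * u * bump ν A z| ≤ |c| * η * bump ν A z := by
  have e : c * (g z * bump ν A z) - c * u * bump ν A z = c * (g z - u) * bump ν A z := by ring
  rw [e, abs_mul, abs_mul, abs_of_nonneg (bump_nonneg ν A z)]
  by_cases hz : z ∈ A
  · have := h z hz
    have := bump_nonneg ν A z
    gcongr
  · have : bump ν A z = 0 := Set.indicator_of_notMem hz _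
    rw [this]; simp

lemma two_bump {ℓ : I × I → ℝ} {η : ℝ} {A B : Set I} {c u : ℝ}
    (h : ∀ z : I × I, z.1 ∈ A → z.2 ∈ B → |ℓ z - u| ≤ η) (z : I × I) :
    (c * u - |c| * η) * (bump ν A z.1 * bump ν B z.2) ≤
      c * (ℓ z * (bump ν A z.1 * bump ν B z.2)) := by
  by_cases hA : z.1 ∈ A
  · by_cases hB : z.2 ∈ B
    · have h1 := h z hA hB
      have h2 : -(|c| * η) ≤ c * (ℓ z - u) := by
        have : |c * (ℓ z - u)| ≤ |c| * η := by
          rw [abs_mul]; gcongr
        have := neg_abs_le (c * (ℓ z - u))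
        linarith
      have h3 : 0 ≤ bump ν A z.1 * bump ν B z.2 :=
        mul_nonneg (bump_nonneg _ _ _) (bump_nonneg _ _ _)
      have h4 : (c * u - |c| * η) ≤ c * ℓ z := by linarith
      calc (c * u - |c| * η) * (bump ν A z.1 * bump ν B z.2)
          ≤ (c * ℓ z) * (bump ν A z.1 * bump ν B z.2) := by gcongr
        _ = _ := by ring
    · have : bump ν B z.2 = 0 := Set.indicator_of_notMem hB _
      rw [this]; simp
  · have : bump ν A z.1 = 0 := Set.indicator_of_notMem hA _
    rw [this]; simp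

lemma continuous_margin {e : I × I → ℝ} (he : Continuous e) :
    Continuous fun x : I => ∫ y, e (x, y) ∂ν := by
  obtain ⟨M, hM⟩ := cont_bdd he
  refine continuous_of_dominated (bound := fun _ => M) (fun x => ?_) (fun x => ?_)
    (integrable_const _) ?_
  · exact (he.comp (by fun_prop : Continuous fun y : I => (x, y))).aestronglyMeasurable
  · exact Filter.Eventually.of_forall fun y => by simpa using hM (x, y)
  · exact Filter.Eventually.of_forall fun y => he.comp (by fun_prop : Continuous fun x : I => (x, y))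

/-- The second order condition at finitely many points of the support. -/
theorem points_le {ℓ e : I × I → ℝ} {c0 : I → ℝ} (hℓ : Continuous ℓ) (he : Continuous e)
    (hc : Continuous c0) (hes : ∀ x y, e (x, y) = e (y, x)) {ε C : ℝ}
    (hε : ∫ z, e z ∂(ν.prod ν) = ε) (hC : 0 ≤ C)
    (KEY : ∀ ν' : Measure I, IsProbabilityMeasure ν' →
      (1 / 2) * ∫ z, ℓ z ∂(ν'.prod ν') - ∫ x, c0 x ∂ν' ≤
        (1 / 2) * ∫ z, ℓ z ∂(ν.prod ν) - ∫ x, c0 x ∂ν + C * (∫ z, e z ∂(ν'.prod ν') - ε) ^ 2)
    {n : ℕ} (x : Fin n → I) (hx : ∀ i, x i ∈ ν.support) (a : Fin n → ℝ) (ha : ∑ i, a i = 0)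
    (hG : ∑ i, a i * ∫ y, e (x i, y) ∂ν = 0) :
    ∑ i, ∑ j, a i * a j * ℓ (x i, x j) ≤ 0 := by
  by_contra hcon
  push Not at hcon
  set Q := ∑ i, ∑ j, a i * a j * ℓ (x i, x j) with hQ
  set S := ∑ i, |a i| with hS
  have hS0 : 0 ≤ S := Finset.sum_nonneg fun i _ => abs_nonneg _
  set G : I → ℝ := fun x => ∫ y, e (x, y) ∂ν with hGdef
  have hGc : Continuous G := continuous_margin ν he
  -- the choice of the precision
  obtain ⟨η, hη0, hη1, hη2⟩ : ∃ η : ℝ, 0 < η ∧ η ≤ 1 ∧ η * (S ^ 2 + 8 * C * S ^ 2) < Q := by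
    have hD : 0 ≤ S ^ 2 + 8 * C * S ^ 2 := by positivity
    refine ⟨min 1 (Q / (2 * (S ^ 2 + 8 * C * S ^ 2 + 1))), lt_min one_pos (by positivity),
      min_le_left _ _, ?_⟩
    calc min 1 (Q / (2 * (S ^ 2 + 8 * C * S ^ 2 + 1))) * (S ^ 2 + 8 * C * S ^ 2)
        ≤ (Q / (2 * (S ^ 2 + 8 * C * S ^ 2 + 1))) * (S ^ 2 + 8 * C * S ^ 2 + 1) :=
          mul_le_mul (min_le_right _ _) (by linarith) hD (by positivity)
      _ = Q / 2 := by field_simp
      _ < Q := by linarith
  obtain ⟨r1, hr1, h1⟩ := Metric.uniformContinuous_iff.1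
    (CompactSpace.uniformContinuous_of_continuous hℓ) η hη0
  obtain ⟨r2, hr2, h2⟩ := Metric.uniformContinuous_iff.1
    (CompactSpace.uniformContinuous_of_continuous hGc) η hη0
  set r := min r1 r2 with hr
  have hr0 : 0 < r := lt_min hr1 hr2
  set B : Fin n → Set I := fun i => Metric.ball (x i) r with hB
  have hBm : ∀ i, MeasurableSet (B i) := fun i => Metric.isOpen_ball.measurableSet
  have hBpos : ∀ i, 0 < ν.real (B i) := by
    intro i
    have h := (Measure.mem_support_iff_forall (x i)).1 (hx i) (B i) (Metric.ball_mem_nhds _ hr0)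
    exact ENNReal.toReal_pos h.ne' (measure_ne_top _ _)
  set ψ : Fin n → I → ℝ := fun i => bump ν (B i) with hψ
  have hψ1 : ∀ i, ∫ y, ψ i y ∂ν = 1 := fun i => integral_bump ν (hBm i) (hBpos i)
  have hψm : ∀ i, Measurable (ψ i) := fun i => measurable_bump ν (hBm i)
  have hψint : ∀ i, Integrable (ψ i) ν := fun i => integrable_of_abs_le (hψm i) (bump_abs_le ν (B i))
  set φ : I → ℝ := fun y => ∑ i, a i * ψ i y with hφdef
  have hφm : Measurable φ := by
    apply Finset.measurable_sum
    intro i _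
    exact (hψm i).const_mul _
  have hφK : ∀ y, |φ y| ≤ ∑ i, |a i| * (ν.real (B i))⁻¹ := by
    intro y
    refine (Finset.abs_sum_le_sum_abs _ _).trans (Finset.sum_le_sum fun i _ => ?_)
    rw [abs_mul]
    exact mul_le_mul_of_nonneg_left (bump_abs_le ν (B i) y) (abs_nonneg _)
  have hφ0 : ∫ y, φ y ∂ν = 0 := by
    rw [hφdef, integral_finset_sum _ fun i _ => (hψint i).const_mul _]
    simp_rw [integral_const_mul, hψ1, mul_one]
    exact ha
  have main := second_order ν hℓ he hc hes hε hC KEY hφm hφK hφ0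
  obtain ⟨M, hM⟩ := cont_bdd he
  obtain ⟨N, hN⟩ := cont_bdd hℓ
  set K := ∑ i, |a i| * (ν.real (B i))⁻¹ with hK
  have hK0 : 0 ≤ K := (abs_nonneg _).trans (hφK 0)
  -- the linear term
  have hlin : |∫ z, e z * φ z.1 ∂(ν.prod ν)| ≤ η * S := by
    have i1 : Integrable (fun z : I × I => e z * φ z.1) (ν.prod ν) :=
      integrable_of_abs_le (he.measurable.mul (hφm.comp measurable_fst)) (M := M * K) fun z => by
        rw [abs_mul]
        exact mul_le_mul (hM z) (hφK _) (abs_nonneg _) ((abs_nonneg _).trans (hM z))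
    rw [integral_prod _ i1]
    simp only
    simp_rw [integral_mul_const]
    have e0 : ∀ y : I, G y * φ y - ∑ i, a i * G (x i) * ψ i y =
        ∑ i, (a i * (G y * ψ i y) - a i * G (x i) * ψ i y) := by
      intro y
      rw [hφdef, Finset.mul_sum, ← Finset.sum_sub_distrib]
      refine Finset.sum_congr rfl fun i _ => by ring
    have b0 : ∀ y : I, |G y * φ y - ∑ i, a i * G (x i) * ψ i y| ≤ ∑ i, |a i| * η * ψ i y := by
      intro y
      rw [e0]
      refine (Finset.abs_sum_le_sum_abs _ _).trans (Finset.sum_le_sum fun i _ => ?_)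
      refine one_bump ν (g := G) (fun w hw => ?_) y
      have := h2 (lt_of_lt_of_le (Metric.mem_ball.1 hw) (min_le_right _ _))
      rw [Real.dist_eq] at this
      exact this.le
    have iG : Integrable (fun y => G y * φ y) ν := by
      obtain ⟨M', hM'⟩ := cont_bdd hGc
      refine integrable_of_abs_le (hGc.measurable.mul hφm) (M := M' * K) fun z => by
        rw [abs_mul]
        exact mul_le_mul (hM' z) (hφK _) (abs_nonneg _) ((abs_nonneg _).trans (hM' z))
    have iS : Integrable (fun y => ∑ i, a i * G (x i) * ψ i y) ν :=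
      integrable_finset_sum _ fun i _ => (hψint i).const_mul _
    have iT : Integrable (fun y => ∑ i, |a i| * η * ψ i y) ν :=
      integrable_finset_sum _ fun i _ => (hψint i).const_mul _
    have z0 : ∫ y, ∑ i, a i * G (x i) * ψ i y ∂ν = 0 := by
      rw [integral_finset_sum _ fun i _ => (hψint i).const_mul _]
      simp_rw [integral_const_mul, hψ1, mul_one]
      exact hG
    have z1 : ∫ y, ∑ i, |a i| * η * ψ i y ∂ν = η * S := by
      rw [integral_finset_sum _ fun i _ => (hψint i).const_mul _]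
      simp_rw [integral_const_mul, hψ1, mul_one]
      rw [← Finset.sum_mul, mul_comm]
    have z2 : ∫ y, G y * φ y ∂ν = ∫ y, (G y * φ y - ∑ i, a i * G (x i) * ψ i y) ∂ν := by
      rw [integral_sub iG iS, z0, sub_zero]
    change |∫ y, G y * φ y ∂ν| ≤ η * S
    rw [z2]
    refine (abs_integral_le_integral_abs).trans ?_
    rw [← z1]
    exact integral_mono (iG.sub iS).abs iT b0
  -- the quadratic term
  have hquad : Q - η * S ^ 2 ≤ ∫ z, ℓ z * (φ z.1 * φ z.2) ∂(ν.prod ν) := by
    have iψψ : ∀ i j, Integrable (fun z : I × I => ψ i z.1 * ψ j z.2) (ν.prod ν) :=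
      fun i j => (hψint i).mul_prod (hψint j)
    have vψψ : ∀ i j, ∫ z : I × I, ψ i z.1 * ψ j z.2 ∂(ν.prod ν) = 1 := fun i j => by
      rw [integral_prod_mul, hψ1, hψ1, one_mul]
    have i3 : Integrable (fun z => ℓ z * (φ z.1 * φ z.2)) (ν.prod ν) :=
      integrable_of_abs_le (hℓ.measurable.mul ((hφm.comp measurable_fst).mul
        (hφm.comp measurable_snd))) (M := N * (K * K)) fun z => by
        rw [abs_mul, abs_mul]
        exact mul_le_mul (hN z) (mul_le_mul (hφK _) (hφK _) (abs_nonneg _) hK0)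
          (by positivity) ((abs_nonneg _).trans (hN z))
    have iL : Integrable (fun z : I × I => ∑ i, ∑ j,
        (a i * a j * ℓ (x i, x j) - |a i * a j| * η) * (ψ i z.1 * ψ j z.2)) (ν.prod ν) :=
      integrable_finset_sum _ fun i _ => integrable_finset_sum _ fun j _ => (iψψ i j).const_mul _
    have vL : ∫ z : I × I, ∑ i, ∑ j,
        (a i * a j * ℓ (x i, x j) - |a i * a j| * η) * (ψ i z.1 * ψ j z.2) ∂(ν.prod ν)
        = Q - η * S ^ 2 := by
      rw [integral_finset_sum _ fun i _ => integrable_finset_sum _ fun j _ =>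
        (iψψ i j).const_mul _]
      have : ∀ i, ∫ z : I × I, ∑ j,
          (a i * a j * ℓ (x i, x j) - |a i * a j| * η) * (ψ i z.1 * ψ j z.2) ∂(ν.prod ν)
          = ∑ j, (a i * a j * ℓ (x i, x j) - |a i| * |a j| * η) := by
        intro i
        rw [integral_finset_sum _ fun j _ => (iψψ i j).const_mul _]
        refine Finset.sum_congr rfl fun j _ => ?_
        rw [integral_const_mul, vψψ, mul_one, abs_mul]
      simp_rw [this, Finset.sum_sub_distrib]
      rw [hQ, hS, sq, Finset.sum_mul_sum, Finset.mul_sum]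
      congr 1
      refine Finset.sum_congr rfl fun i _ => ?_
      rw [Finset.mul_sum]
      refine Finset.sum_congr rfl fun j _ => by ring
    rw [← vL]
    refine integral_mono iL i3 fun z => ?_
    have e1 : ℓ z * (φ z.1 * φ z.2) = ∑ i, ∑ j, a i * a j * (ℓ z * (ψ i z.1 * ψ j z.2)) := by
      simp only [hφdef]
      rw [Finset.sum_mul_sum, Finset.mul_sum]
      refine Finset.sum_congr rfl fun i _ => ?_
      rw [Finset.mul_sum]
      refine Finset.sum_congr rfl fun j _ => by ring
    rw [e1]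
    refine Finset.sum_le_sum fun i _ => Finset.sum_le_sum fun j _ => ?_
    refine two_bump ν (ℓ := ℓ) (fun w hw1 hw2 => ?_) z
    have : dist w (x i, x j) < r1 := by
      rw [Prod.dist_eq]
      exact max_lt (lt_of_lt_of_le (Metric.mem_ball.1 hw1) (min_le_left _ _))
        (lt_of_lt_of_le (Metric.mem_ball.1 hw2) (min_le_left _ _))
    have := h1 this
    rw [Real.dist_eq] at this
    exact this.le
  have hsq : (∫ z, e z * φ z.1 ∂(ν.prod ν)) ^ 2 ≤ (η * S) ^ 2 := by
    rw [← sq_abs]
    gcongr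
  have h8 : 8 * C * (∫ z, e z * φ z.1 ∂(ν.prod ν)) ^ 2 ≤ 8 * C * (η * S) ^ 2 := by gcongr
  have h9 : 8 * C * (η * S) ^ 2 ≤ η * (8 * C * S ^ 2) := by
    have : η ^ 2 ≤ η := by nlinarith
    have h10 : 0 ≤ 8 * C * S ^ 2 := by positivity
    calc 8 * C * (η * S) ^ 2 = η ^ 2 * (8 * C * S ^ 2) := by ring
      _ ≤ _ := by gcongr
  linarith

end

end Pool.Agent.helper26.PS
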