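import Mathlib

/-!
Definitions for the constrained p-star model.
-/

namespace Pool.Agent.helper26.PS

open MeasureTheory unitInterval

/-- The function `q log q + (1 - q) log (1 - q)` (zero at `q = 0` and `q = 1`). -/
noncomputable def ent (q : ℝ) : ℝ := q * Real.log q + (1 - q) * Real.log (1 - q)

/-- A graphon: a measurable symmetric function on the unit square with values in `[0,1]`. -/
structure IsGraphon (h : I → I → ℝ) : Prop where
  measurable : Measurable (Function.uncurry h)
  symm : ∀ x y, h x y = h y x
  nonneg : ∀ x y, 0 ≤ h x y
  le_one : ∀ x y, h x y ≤ 1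

/-- The degree function of `h`. -/
noncomputable def deg (h : I → I → ℝ) (x : I) : ℝ := ∫ y : I, h x y

/-- The edge density of `h`: its integral over the unit square. -/
noncomputable def edgeDensity (h : I → I → ℝ) : ℝ := ∫ z : I × I, h z.1 z.2

/-- The free energy `β ∫ deg^p - (1/2) ∬ ent(h)` of the p-star model. -/
noncomputable def freeEnergy (p : ℕ) (β : ℝ) (h : I → I → ℝ) : ℝ :=
  β * (∫ x : I, deg h x ^ p) - (1 / 2) * ∫ z : I × I, ent (h z.1 z.2)

/-- `h` is an optimizing graphon of the constrained p-star model: a graphon of edge density `ε`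
whose free energy is largest among all graphons of edge density `ε`. -/
def IsOptimizer (p : ℕ) (ε β : ℝ) (h : I → I → ℝ) : Prop :=
  IsGraphon h ∧ edgeDensity h = ε ∧
    ∀ h' : I → I → ℝ, IsGraphon h' → edgeDensity h' = ε → freeEnergy p β h' ≤ freeEnergy p β h

/-- `h` has at most `k` podes: for some partition of the unit interval into `k` measurable sets
(the fibres of `c`, some of them possibly empty or null) `h` is almost everywhere constant on each
product of two of these sets. -/
def AtMostPodes (k : ℕ) (h : I → I → ℝ) : Prop :=
  ∃ c : I → Fin k, Measurable c ∧ ∃ v : Fin k → Fin k → ℝ,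
    ∀ᵐ z : I × I, h z.1 z.2 = v (c z.1) (c z.2)

end Pool.Agent.helper26.PS
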