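import Pool.Agent.helper26.PS.Scalar

/-!
The finite dimensional part: for u1 < u2 < u3 < u4 the 3x3 matrix of second differences of
L(u_i + u_j) has negative determinant (strict total positivity of order three of the logistic
kernel), hence the quadratic form of L(u_i + u_j) on vectors of sum zero cannot be nonpositive
on a hyperplane.
-/

namespace Pool.Agent.helper26.PS

open Real MeasureTheory intervalIntegral

/-- determinant of a 3x3 matrix given by its rows -/
def det3 (a b c d e f g h i : ℝ) : ℝ := a * (e * i - f * h) - b * (d * i - f * g) + c * (d * h - e * g)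

/-- `sigmoid (s + v) - sigmoid (s + u)` -/
noncomputable def rr (u v s : ℝ) : ℝ := sigmoid (s + v) - sigmoid (s + u)

lemma rr_eq (u v s : ℝ) : rr u v s =
    exp s * (exp v - exp u) / ((1 + exp s * exp u) * (1 + exp s * exp v)) := by
  unfold rr
  rw [sigmoid_def, sigmoid_def]
  have e1 : exp (-(s + v)) = (exp s * exp v)⁻¹ := by rw [exp_neg, exp_add]
  have e2 : exp (-(s + u)) = (exp s * exp u)⁻¹ := by rw [exp_neg, exp_add]
  rw [e1, e2]
  have p1 := exp_pos s
  have p2 := exp_pos u
  have p3 := exp_pos v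
  field_simp
  ring

/-- the pointwise determinant is negative -/
lemma det3_rr_neg {u1 u2 u3 u4 s1 s2 s3 : ℝ} (h1 : u1 < u2) (h2 : u2 < u3) (h3 : u3 < u4)
    (k1 : s1 < s2) (k2 : s2 < s3) :
    det3 (rr u1 u2 s1) (rr u2 u3 s1) (rr u3 u4 s1)
      (rr u1 u2 s2) (rr u2 u3 s2) (rr u3 u4 s2)
      (rr u1 u2 s3) (rr u2 u3 s3) (rr u3 u4 s3) < 0 := by
  have y1 := exp_pos u1
  have y2 := exp_pos u2
  have y3 := exp_pos u3
  have y4 := exp_pos u4
  have x1 := exp_pos s1
  have x2 := exp_pos s2
  have x3 := exp_pos s3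
  have g1 : exp u1 < exp u2 := exp_lt_exp.2 h1
  have g2 : exp u2 < exp u3 := exp_lt_exp.2 h2
  have g3 : exp u3 < exp u4 := exp_lt_exp.2 h3
  have l1 : exp s1 < exp s2 := exp_lt_exp.2 k1
  have l2 : exp s2 < exp s3 := exp_lt_exp.2 k2
  simp only [rr_eq]
  generalize exp u1 = a at *
  generalize exp u2 = b at *
  generalize exp u3 = c at *
  generalize exp u4 = d at *
  generalize exp s1 = x at *
  generalize exp s2 = y at *
  generalize exp s3 = z at *
  have key : ∀ w : ℝ, 0 < w →
      (w * (b - a) / ((1 + w * a) * (1 + w * b)) =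
        w / ((1 + w * a) * (1 + w * b) * (1 + w * c) * (1 + w * d)) *
          ((b - a) * ((1 + w * c) * (1 + w * d)))) ∧
      (w * (c - b) / ((1 + w * b) * (1 + w * c)) =
        w / ((1 + w * a) * (1 + w * b) * (1 + w * c) * (1 + w * d)) *
          ((c - b) * ((1 + w * a) * (1 + w * d)))) ∧
      (w * (d - c) / ((1 + w * c) * (1 + w * d)) =
        w / ((1 + w * a) * (1 + w * b) * (1 + w * c) * (1 + w * d)) *
          ((d - c) * ((1 + w * a) * (1 + w * b)))) := by
    intro w hw
    refine ⟨?_, ?_, ?_⟩ <;> field_simp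
  obtain ⟨e1, e2, e3⟩ := key x x1
  obtain ⟨f1, f2, f3⟩ := key y x2
  obtain ⟨m1, m2, m3⟩ := key z x3
  rw [e1, e2, e3, f1, f2, f3, m1, m2, m3]
  have px : 0 < x / ((1 + x * a) * (1 + x * b) * (1 + x * c) * (1 + x * d)) := by positivity
  have py : 0 < y / ((1 + y * a) * (1 + y * b) * (1 + y * c) * (1 + y * d)) := by positivity
  have pz : 0 < z / ((1 + z * a) * (1 + z * b) * (1 + z * c) * (1 + z * d)) := by positivity
  generalize x / ((1 + x * a) * (1 + x * b) * (1 + x * c) * (1 + x * d)) = P at *
  generalize y / ((1 + y * a) * (1 + y * b) * (1 + y * c) * (1 + y * d)) = Q at *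
  generalize z / ((1 + z * a) * (1 + z * b) * (1 + z * c) * (1 + z * d)) = R at *
  have id : det3 (P * ((b - a) * ((1 + x * c) * (1 + x * d))))
      (P * ((c - b) * ((1 + x * a) * (1 + x * d)))) (P * ((d - c) * ((1 + x * a) * (1 + x * b))))
      (Q * ((b - a) * ((1 + y * c) * (1 + y * d))))
      (Q * ((c - b) * ((1 + y * a) * (1 + y * d)))) (Q * ((d - c) * ((1 + y * a) * (1 + y * b))))
      (R * ((b - a) * ((1 + z * c) * (1 + z * d))))
      (R * ((c - b) * ((1 + z * a) * (1 + z * d)))) (R * ((d - c) * ((1 + z * a) * (1 + z * b))))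
      = -(P * Q * R * ((b - a) * (c - b) * (d - c)) * ((y - x) * (z - x) * (z - y)) *
          ((c - a) * (d - b) * (d - a))) := by
    unfold det3
    ring
  rw [id]
  have q1 : 0 < b - a := by linarith
  have q2 : 0 < c - b := by linarith
  have q3 : 0 < d - c := by linarith
  have q4 : 0 < y - x := by linarith
  have q5 : 0 < z - x := by linarith
  have q6 : 0 < z - y := by linarith
  have q7 : 0 < c - a := by linarith
  have q8 : 0 < d - b := by linarith
  have q9 : 0 < d - a := by linarith
  have : 0 < P * Q * R * ((b - a) * (c - b) * (d - c)) * ((y - x) * (z - x) * (z - y)) *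
          ((c - a) * (d - b) * (d - a)) := by positivity
  linarith

end Pool.Agent.helper26.PS
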