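import Pool.Agent.helper26.PS.Abs2

/-!
The variational bounds for the free energy of the p-star model.
-/

namespace Pool.Agent.helper26.PS

open MeasureTheory Real
open scoped unitInterval

lemma continuous_ent : Continuous ent := by
  unfold ent
  have h := Real.continuous_mul_log
  exact h.add (h.comp (continuous_const.sub continuous_id))

lemma ent_nonpos {q : ℝ} (h0 : 0 ≤ q) (h1 : q ≤ 1) : ent q ≤ 0 := by
  unfold ent
  have a := Real.mul_log_nonpos h0 h1
  have b := Real.mul_log_nonpos (sub_nonneg.2 h1) (by linarith : 1 - q ≤ 1)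
  linarith

lemma ent_abs_le {q : ℝ} (h0 : 0 ≤ q) (h1 : q ≤ 1) : |ent q| ≤ L 0 := by
  have a := fenchel h0 h1 0
  rw [abs_of_nonpos (ent_nonpos h0 h1)]
  linarith

section graphon
variable {h : I → I → ℝ}

lemma IsGraphon.abs_le (hh : IsGraphon h) (x y : I) : |h x y| ≤ 1 := by
  rw [abs_of_nonneg (hh.nonneg x y)]
  exact hh.le_one x y

lemma IsGraphon.meas (hh : IsGraphon h) : Measurable fun z : I × I => h z.1 z.2 := hh.measurable

lemma IsGraphon.measurable_deg (hh : IsGraphon h) : Measurable (deg h) :=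
  (hh.measurable.stronglyMeasurable.integral_prod_right (ν := (volume : Measure I))).measurable

lemma IsGraphon.deg_nonneg (hh : IsGraphon h) (x : I) : 0 ≤ deg h x :=
  integral_nonneg fun y => hh.nonneg x y

lemma IsGraphon.integrable_row (hh : IsGraphon h) (x : I) : Integrable (fun y => h x y) :=
  integrable_of_abs_le (hh.meas.comp (measurable_prodMk_left (x := x))) (hh.abs_le x)

lemma IsGraphon.deg_le_one (hh : IsGraphon h) (x : I) : deg h x ≤ 1 := by
  have := integral_mono (hh.integrable_row x) (integrable_const (1 : ℝ)) fun y => hh.le_one x y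
  simpa [deg] using this

lemma IsGraphon.integrable (hh : IsGraphon h) : Integrable (fun z : I × I => h z.1 z.2) :=
  integrable_of_abs_le hh.meas fun z => hh.abs_le z.1 z.2

lemma IsGraphon.integrable_ent (hh : IsGraphon h) :
    Integrable (fun z : I × I => ent (h z.1 z.2)) :=
  integrable_of_abs_le (continuous_ent.measurable.comp hh.meas)
    fun z => ent_abs_le (hh.nonneg _ _) (hh.le_one _ _)

lemma IsGraphon.integrable_fst (hh : IsGraphon h) {f : I → ℝ} (hf : Measurable f) {K : ℝ}
    (hK : ∀ x, |f x| ≤ K) : Integrable (fun z : I × I => f z.1 * h z.1 z.2) :=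
  integrable_of_abs_le ((hf.comp measurable_fst).mul hh.meas) (M := K * 1) fun z => by
    rw [abs_mul]
    exact mul_le_mul (hK _) (hh.abs_le _ _) (abs_nonneg _) ((abs_nonneg _).trans (hK z.1))

lemma IsGraphon.integrable_snd (hh : IsGraphon h) {f : I → ℝ} (hf : Measurable f) {K : ℝ}
    (hK : ∀ x, |f x| ≤ K) : Integrable (fun z : I × I => f z.2 * h z.1 z.2) :=
  integrable_of_abs_le ((hf.comp measurable_snd).mul hh.meas) (M := K * 1) fun z => by
    rw [abs_mul]
    exact mul_le_mul (hK _) (hh.abs_le _ _) (abs_nonneg _) ((abs_nonneg _).trans (hK z.1))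

lemma IsGraphon.integral_mul_deg (hh : IsGraphon h) {f : I → ℝ} (hf : Measurable f) {K : ℝ}
    (hK : ∀ x, |f x| ≤ K) :
    ∫ x : I, f x * deg h x = (1 / 2) * ∫ z : I × I, (f z.1 + f z.2) * h z.1 z.2 := by
  have i1 := hh.integrable_fst hf hK
  have i2 := hh.integrable_snd hf hK
  have e1 : ∫ z : I × I, f z.1 * h z.1 z.2 = ∫ x : I, f x * deg h x := by
    have := integral_prod (μ := (volume : Measure I)) (ν := (volume : Measure I)) _ i1
    rw [show (volume : Measure (I × I)) = (volume : Measure I).prod volume from rfl, this]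
    refine integral_congr_ae (Filter.Eventually.of_forall fun x => ?_)
    simp only [deg]
    rw [integral_const_mul]
  have e2 : ∫ z : I × I, f z.2 * h z.1 z.2 = ∫ z : I × I, f z.1 * h z.1 z.2 := by
    have := integral_prod_swap (μ := (volume : Measure I)) (ν := (volume : Measure I))
      (fun z : I × I => f z.1 * h z.1 z.2)
    rw [show (volume : Measure (I × I)) = (volume : Measure I).prod volume from rfl, ← this]
    refine integral_congr_ae (Filter.Eventually.of_forall fun z => ?_)
    simp only [Prod.swap]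
    rw [hh.symm z.2 z.1]
  have e3 : ∫ z : I × I, (f z.1 + f z.2) * h z.1 z.2 =
      (∫ z : I × I, f z.1 * h z.1 z.2) + ∫ z : I × I, f z.2 * h z.1 z.2 := by
    rw [← integral_add i1 i2]
    refine integral_congr_ae (Filter.Eventually.of_forall fun z => ?_)
    simp only
    ring
  rw [e3, e2, e1]
  ring

end graphon

/-- the potential `s(u) = β p u^(p-1)` -/
noncomputable def pot (p : ℕ) (β : ℝ) (u : I) : ℝ := β * (p * (u : ℝ) ^ (p - 1))

section pot
variable (p : ℕ) (β : ℝ)

lemma continuous_pot : Continuous (pot p β) := by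
  unfold pot
  fun_prop

lemma pot_abs_le (hβ : 0 ≤ β) (u : I) : |pot p β u| ≤ β * p := by
  unfold pot
  have h1 : (u : ℝ) ^ (p - 1) ≤ 1 := pow_le_one₀ u.2.1 u.2.2
  have h0 : 0 ≤ (u : ℝ) ^ (p - 1) := pow_nonneg u.2.1 _
  rw [abs_of_nonneg (by positivity)]
  have : (p : ℝ) * (u : ℝ) ^ (p - 1) ≤ p * 1 := by gcongr
  calc β * (p * (u : ℝ) ^ (p - 1)) ≤ β * (p * 1) := by gcongr
    _ = β * p := by ring

lemma pot_mul (hp : 1 ≤ p) (u : I) : pot p β u * u = β * p * (u : ℝ) ^ p := by
  unfold pot
  have : (u : ℝ) ^ p = (u : ℝ) ^ (p - 1) * u := by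
    rw [← pow_succ, Nat.sub_add_cancel hp]
  rw [this]; ring

/-- the argument `s(x) + s(y) + 2 lam` -/
noncomputable def arg (lam : ℝ) (z : I × I) : ℝ := pot p β z.1 + pot p β z.2 + 2 * lam

lemma continuous_arg (lam : ℝ) : Continuous (arg p β lam) := by
  unfold arg
  have := continuous_pot p β
  fun_prop

lemma arg_abs_le (hβ : 0 ≤ β) (lam : ℝ) (z : I × I) :
    |arg p β lam z| ≤ 2 * (β * p) + 2 * |lam| := by
  unfold arg
  have a := abs_le.1 (pot_abs_le p β hβ z.1)
  have b := abs_le.1 (pot_abs_le p β hβ z.2)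
  have c := neg_abs_le lam
  have d := le_abs_self lam
  rw [abs_le]
  constructor <;> linarith [a.1, a.2, b.1, b.2]

/-- the competitor graphon -/
noncomputable def comp (γ : I → I) (lam : ℝ) (x y : I) : ℝ := sigmoid (arg p β lam (γ x, γ y))

variable {p β}

lemma comp_isGraphon {γ : I → I} (hγ : Measurable γ) (lam : ℝ) :
    IsGraphon (comp p β γ lam) where
  measurable := by
    have h1 : Measurable fun z : I × I => (γ z.1, γ z.2) :=
      (hγ.comp measurable_fst).prodMk (hγ.comp measurable_snd)
    have h2 : Measurable fun z : I × I => arg p β lam (γ z.1, γ z.2) :=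
      (continuous_arg p β lam).measurable.comp h1
    exact (continuous_sigmoid.measurable.comp h2 :
      Measurable fun z : I × I => sigmoid (arg p β lam (γ z.1, γ z.2)))
  symm := fun x y => by
    unfold comp arg
    simp only
    rw [add_comm (pot p β (γ x))]
  nonneg := fun x y => sigmoid_nonneg _
  le_one := fun x y => sigmoid_le_one _

lemma L_abs_le {T t : ℝ} (h : |t| ≤ T) : |L t| ≤ L T := by
  rw [abs_of_pos (L_pos t)]
  exact L_mono ((le_abs_self t).trans h)

lemma integrable_L_arg (hβ : 0 ≤ β) {γ : I → I} (hγ : Measurable γ) (lam : ℝ) :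
    Integrable (fun z : I × I => L (arg p β lam (γ z.1, γ z.2))) := by
  have h1 : Measurable fun z : I × I => (γ z.1, γ z.2) :=
    (hγ.comp measurable_fst).prodMk (hγ.comp measurable_snd)
  exact integrable_of_abs_le (continuous_L.measurable.comp
    ((continuous_arg p β lam).measurable.comp h1)) fun z => L_abs_le (arg_abs_le p β hβ lam _)

/-- the value function `A(γ, lam)` -/
noncomputable def val (p : ℕ) (β ε : ℝ) (γ : I → I) (lam : ℝ) : ℝ :=
  (1 / 2) * (∫ z : I × I, L (arg p β lam (γ z.1, γ z.2)))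
    - (∫ x : I, ((p : ℝ) - 1) * β * (γ x : ℝ) ^ p) - lam * ε

lemma integrable_pow {γ : I → I} (hγ : Measurable γ) (n : ℕ) (c : ℝ) :
    Integrable (fun x : I => c * (γ x : ℝ) ^ n) := by
  refine integrable_of_abs_le (M := |c|) ?_ fun x => ?_
  · have : Measurable fun x : I => (γ x : ℝ) := measurable_subtype_coe.comp hγ
    fun_prop
  · rw [abs_mul]
    have h1 : |(γ x : ℝ) ^ n| ≤ 1 := by
      rw [abs_of_nonneg (pow_nonneg (γ x).2.1 _)]
      exact pow_le_one₀ (γ x).2.1 (γ x).2.2
    calc |c| * |(γ x : ℝ) ^ n| ≤ |c| * 1 := by gcongr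
      _ = |c| := mul_one _

/-- exact formula: half the integral of `(s+s) h - ent h` in terms of the shifted integrand. -/
lemma half_int (hβ : 0 ≤ β) {h : I → I → ℝ} (hh : IsGraphon h) {γ : I → I}
    (hγ : Measurable γ) (lam : ℝ) :
    (∫ x : I, pot p β (γ x) * deg h x) - (1 / 2) * (∫ z : I × I, ent (h z.1 z.2)) =
      (1 / 2) * (∫ z : I × I, (arg p β lam (γ z.1, γ z.2) * h z.1 z.2 - ent (h z.1 z.2)))
        - lam * edgeDensity h := by
  have hf : Measurable fun x : I => pot p β (γ x) := (continuous_pot p β).measurable.comp hγ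
  have hK : ∀ x, |pot p β (γ x)| ≤ β * p := fun x => pot_abs_le p β hβ _
  rw [hh.integral_mul_deg hf hK]
  have i1 := hh.integrable_fst hf hK
  have i2 := hh.integrable_snd hf hK
  have i12 : Integrable fun z : I × I => (pot p β (γ z.1) + pot p β (γ z.2)) * h z.1 z.2 := by
    have := i1.add i2
    refine this.congr (Filter.Eventually.of_forall fun z => ?_)
    simp only [Pi.add_apply]
    ring
  have e : ∀ z : I × I, arg p β lam (γ z.1, γ z.2) * h z.1 z.2 - ent (h z.1 z.2) =
      ((pot p β (γ z.1) + pot p β (γ z.2)) * h z.1 z.2 + 2 * lam * h z.1 z.2)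
        - ent (h z.1 z.2) := by
    intro z
    unfold arg
    ring
  simp_rw [e]
  have i3 : Integrable fun z : I × I => 2 * lam * h z.1 z.2 := hh.integrable.const_mul _
  have i4 : Integrable fun z : I × I => (pot p β (γ z.1) + pot p β (γ z.2)) * h z.1 z.2
      + 2 * lam * h z.1 z.2 := i12.add i3
  rw [integral_sub i4 hh.integrable_ent, integral_add i12 i3, integral_const_mul]
  unfold edgeDensity
  ring

/-- Upper bound for the free energy of a graphon. -/
lemma freeEnergy_eq (hp : 1 ≤ p) (hβ : 0 ≤ β) {h : I → I → ℝ} (hh : IsGraphon h) {γ : I → I}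
    (hγ : Measurable γ) (hγh : ∀ x, (γ x : ℝ) = deg h x) (lam : ℝ) :
    freeEnergy p β h = val p β (edgeDensity h) γ lam -
      (1 / 2) * (∫ z : I × I, (L (arg p β lam (γ z.1, γ z.2)) -
        (arg p β lam (γ z.1, γ z.2) * h z.1 z.2 - ent (h z.1 z.2)))) := by
  have iL := integrable_L_arg (p := p) hβ hγ lam
  have iR : Integrable fun z : I × I =>
      (arg p β lam (γ z.1, γ z.2) * h z.1 z.2 - ent (h z.1 z.2)) := by
    refine Integrable.sub ?_ hh.integrable_ent
    have h1 : Measurable fun z : I × I => (γ z.1, γ z.2) :=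
      (hγ.comp measurable_fst).prodMk (hγ.comp measurable_snd)
    refine integrable_of_abs_le (((continuous_arg p β lam).measurable.comp h1).mul hh.meas)
      (M := (2 * (β * p) + 2 * |lam|) * 1) fun z => ?_
    rw [abs_mul]
    exact mul_le_mul (arg_abs_le p β hβ lam _) (hh.abs_le _ _) (abs_nonneg _)
      ((abs_nonneg _).trans (arg_abs_le p β hβ lam (γ z.1, γ z.2)))
  rw [integral_sub iL iR]
  have key := half_int (p := p) hβ hh hγ lam
  have e1 : β * (∫ x : I, deg h x ^ p) = (∫ x : I, pot p β (γ x) * deg h x)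
      - ∫ x : I, ((p : ℝ) - 1) * β * (γ x : ℝ) ^ p := by
    have e2 : ∀ x : I, pot p β (γ x) * deg h x = (β * p) * (γ x : ℝ) ^ p := fun x => by
      rw [← hγh, pot_mul p β hp]
    simp_rw [e2, ← hγh]
    rw [← integral_sub (integrable_pow hγ _ _) (integrable_pow hγ _ _), ← integral_const_mul]
    refine integral_congr_ae (Filter.Eventually.of_forall fun x => ?_)
    simp only
    ring
  unfold freeEnergy val
  rw [e1]
  linarith

lemma freeEnergy_le (hp : 1 ≤ p) (hβ : 0 ≤ β) {h : I → I → ℝ} (hh : IsGraphon h) {γ : I → I}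
    (hγ : Measurable γ) (hγh : ∀ x, (γ x : ℝ) = deg h x) (lam : ℝ) :
    freeEnergy p β h ≤ val p β (edgeDensity h) γ lam := by
  rw [freeEnergy_eq hp hβ hh hγ hγh lam]
  have : 0 ≤ ∫ z : I × I, (L (arg p β lam (γ z.1, γ z.2)) -
        (arg p β lam (γ z.1, γ z.2) * h z.1 z.2 - ent (h z.1 z.2))) :=
    integral_nonneg fun z => sub_nonneg.2 (fenchel (hh.nonneg _ _) (hh.le_one _ _) _)
  linarith

/-- Lower bound for the free energy of the competitor. -/
lemma le_freeEnergy (hp : 1 ≤ p) (hβ : 0 ≤ β) {γ : I → I} (hγ : Measurable γ) (lam : ℝ) :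
    val p β (edgeDensity (comp p β γ lam)) γ lam ≤ freeEnergy p β (comp p β γ lam) := by
  set k := comp p β γ lam with hk
  have hh : IsGraphon k := comp_isGraphon hγ lam
  have key := half_int (p := p) hβ hh hγ lam
  have e1 : ∀ z : I × I, arg p β lam (γ z.1, γ z.2) * k z.1 z.2 - ent (k z.1 z.2)
      = L (arg p β lam (γ z.1, γ z.2)) := fun z => fenchel_sigmoid _
  simp_rw [e1] at key
  have e2 : (∫ x : I, pot p β (γ x) * deg k x) - (∫ x : I, ((p : ℝ) - 1) * β * (γ x : ℝ) ^ p)
      ≤ β * (∫ x : I, deg k x ^ p) := by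
    have hdm := hh.measurable_deg
    have i1 : Integrable fun x : I => pot p β (γ x) * deg k x :=
      integrable_of_abs_le (((continuous_pot p β).measurable.comp hγ).mul hdm)
        (M := β * p * 1) fun x => by
        rw [abs_mul]
        refine mul_le_mul (pot_abs_le p β hβ _) ?_ (abs_nonneg _) (by positivity)
        rw [abs_of_nonneg (hh.deg_nonneg x)]
        exact hh.deg_le_one x
    have i3 : Integrable fun x : I => deg k x ^ p :=
      integrable_of_abs_le (hdm.pow_const p) (M := 1) fun x => by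
        rw [abs_of_nonneg (pow_nonneg (hh.deg_nonneg x) _)]
        exact pow_le_one₀ (hh.deg_nonneg x) (hh.deg_le_one x)
    rw [← integral_sub i1 (integrable_pow hγ _ _), ← integral_const_mul]
    refine integral_mono (i1.sub (integrable_pow hγ _ _)) (i3.const_mul β) fun x => ?_
    have pt := pow_tangent p hp (hh.deg_nonneg x) (γ x).2.1
    have pm := pot_mul p β hp (γ x)
    have : pot p β (γ x) * deg k x - ((p : ℝ) - 1) * β * (γ x : ℝ) ^ p
        = β * ((γ x : ℝ) ^ p + p * (γ x : ℝ) ^ (p - 1) * (deg k x - γ x)) := by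
      unfold pot at pm ⊢
      linear_combination pm
    simp only
    rw [this]
    gcongr
  unfold freeEnergy val
  linarith

end pot

end Pool.Agent.helper26.PS
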