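import Pool.Agent.helper26.PS.Key

/-!
At most three podes.
-/

namespace Pool.Agent.helper26.PS

open MeasureTheory Real
open scoped unitInterval

variable {p : ℕ} {β : ℝ}

lemma pot_strict (hp : 2 ≤ p) (hβ : 0 < β) {x y : I} (hxy : x < y) : pot p β x < pot p β y := by
  unfold pot
  have h1 : (x : ℝ) ^ (p - 1) < (y : ℝ) ^ (p - 1) :=
    pow_lt_pow_left₀ hxy x.2.1 (by omega)
  have hp0 : (0 : ℝ) < p := by exact_mod_cast (by omega : 0 < p)
  exact mul_lt_mul_of_pos_left (mul_lt_mul_of_pos_left h1 hp0) hβ

lemma support_encard_le (hp : 2 ≤ p) (hβ : 0 < β) {ε lam C : ℝ} (ν : Measure I)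
    [IsProbabilityMeasure ν] (hC : 0 ≤ C)
    (hε : ∫ w, sigmoid (arg p β lam w) ∂(ν.prod ν) = ε)
    (KEY : ∀ ν' : Measure I, IsProbabilityMeasure ν' →
        (1 / 2) * ∫ w, L (arg p β lam w) ∂(ν'.prod ν')
          - ∫ x, ((p : ℝ) - 1) * β * (x : ℝ) ^ p ∂ν' ≤
        (1 / 2) * ∫ w, L (arg p β lam w) ∂(ν.prod ν)
          - ∫ x, ((p : ℝ) - 1) * β * (x : ℝ) ^ p ∂ν
          + C * (∫ w, sigmoid (arg p β lam w) ∂(ν'.prod ν') - ε) ^ 2) :
    ν.support.encard ≤ 3 := by
  by_contra hcon
  push Not at hcon
  have h4 : (4 : ℕ∞) ≤ ν.support.encard := by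
    have := Order.add_one_le_of_lt hcon
    norm_num at this
    exact this
  obtain ⟨t, hts, ht4⟩ := Set.exists_subset_encard_eq h4
  have hfin : t.Finite := Set.finite_of_encard_eq_coe ht4
  set T := hfin.toFinset with hT
  have hcard : T.card = 4 := by
    have := hfin.encard_eq_coe_toFinset_card
    rw [ht4] at this
    exact_mod_cast this.symm
  set x := T.orderEmbOfFin hcard with hx
  have hxs : ∀ i, x i ∈ ν.support := fun i => by
    have : x i ∈ T := Finset.orderEmbOfFin_mem T hcard i
    exact hts (hfin.mem_toFinset.1 this)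
  have hmono : StrictMono x := x.strictMono
  set G : I → ℝ := fun y => ∫ w, sigmoid (arg p β lam (y, w)) ∂ν with hG
  have hGlt : ∀ {y z : I}, y < z → G y < G z := by
    intro y z hyz
    have hd : 0 < pot p β z - pot p β y := sub_pos.2 (pot_strict hp hβ hyz)
    set T' := 2 * (β * p) + 2 * |lam| with hT'
    have hc : 0 < sigmoid (-T') * sigmoid (-T') := mul_pos (sigmoid_pos _) (sigmoid_pos _)
    have m : ∀ y : I, Measurable fun w : I => sigmoid (arg p β lam (y, w)) := fun y =>
      (continuous_sigmoid.comp ((continuous_arg p β lam).comp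
        (by fun_prop : Continuous fun w : I => (y, w)))).measurable
    have ii : ∀ y : I, Integrable (fun w : I => sigmoid (arg p β lam (y, w))) ν := fun y =>
      integrable_of_abs_le (m y) (M := 1) fun w => by
        rw [abs_of_nonneg (sigmoid_nonneg _)]
        exact sigmoid_le_one _
    have h := integral_mono (integrable_const (μ := ν)
      (sigmoid (-T') * sigmoid (-T') * (pot p β z - pot p β y))) ((ii z).sub (ii y))
      fun w : I => by
        have a1 : |arg p β lam (y, w)| ≤ T' := arg_abs_le p β hβ.le lam _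
        have e : arg p β lam (y, w) + (pot p β z - pot p β y) = arg p β lam (z, w) := by
          unfold arg; ring
        have a2 : |arg p β lam (y, w) + (pot p β z - pot p β y)| ≤ T' := by
          rw [e]; exact arg_abs_le p β hβ.le lam _
        have g := sigmoid_growth' a1 a2 hd.le
        rw [e] at g
        exact g
    have h2 : sigmoid (-T') * sigmoid (-T') * (pot p β z - pot p β y) ≤ G z - G y := by
      have e : G z - G y = ∫ w, ((fun w : I => sigmoid (arg p β lam (z, w))) -
          (fun w : I => sigmoid (arg p β lam (y, w)))) w ∂ν := by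
        rw [integral_sub' (ii z) (ii y)]
      rw [e]
      simpa using h
    have h3 : 0 < sigmoid (-T') * sigmoid (-T') * (pot p β z - pot p β y) := mul_pos hc hd
    linarith
  have h01 : x 0 < x 1 := hmono (by decide)
  have h12 : x 1 < x 2 := hmono (by decide)
  have h23 : x 2 < x 3 := hmono (by decide)
  obtain ⟨a, ha0, haG, haL⟩ := exists_exchange (u1 := pot p β (x 0) + lam)
    (u2 := pot p β (x 1) + lam) (u3 := pot p β (x 2) + lam) (u4 := pot p β (x 3) + lam)
    (g1 := G (x 0)) (g2 := G (x 1)) (g3 := G (x 2)) (g4 := G (x 3))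
    (by linarith [pot_strict hp hβ h01]) (by linarith [pot_strict hp hβ h12])
    (by linarith [pot_strict hp hβ h23]) (hGlt h12)
  have cL : Continuous fun w : I × I => L (arg p β lam w) :=
    continuous_L.comp (continuous_arg p β lam)
  have cS : Continuous fun w : I × I => sigmoid (arg p β lam w) :=
    continuous_sigmoid.comp (continuous_arg p β lam)
  have cP : Continuous fun x : I => ((p : ℝ) - 1) * β * (x : ℝ) ^ p := by fun_prop
  have hle := points_le ν (ℓ := fun w => L (arg p β lam w))
    (e := fun w => sigmoid (arg p β lam w)) (c0 := fun x => ((p : ℝ) - 1) * β * (x : ℝ) ^ p)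
    cL cS cP (fun y z => by unfold arg; simp only; rw [add_comm (pot p β y)]) hε hC KEY
    (fun i => x i) hxs a ha0 (by
      rw [← haG]
      refine Finset.sum_congr rfl fun i _ => ?_
      fin_cases i <;> rfl)
  have heq : ∑ i, ∑ j, a i * a j * L (arg p β lam (x i, x j)) =
      ∑ i, ∑ j, a i * a j * L (![pot p β (x 0) + lam, pot p β (x 1) + lam,
        pot p β (x 2) + lam, pot p β (x 3) + lam] i + ![pot p β (x 0) + lam,
        pot p β (x 1) + lam, pot p β (x 2) + lam, pot p β (x 3) + lam] j) := by
    have hu : ∀ i, ![pot p β (x 0) + lam, pot p β (x 1) + lam,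
        pot p β (x 2) + lam, pot p β (x 3) + lam] i = pot p β (x i) + lam := by
      intro i
      fin_cases i <;> rfl
    refine Finset.sum_congr rfl fun i _ => Finset.sum_congr rfl fun j _ => ?_
    rw [hu, hu]
    congr 2
    unfold arg
    ring
  rw [← heq] at haL
  exact absurd hle (not_le.2 haL)

lemma podes_of_support {h : I → I → ℝ} {γ : I → I} (hγ : Measurable γ) {f : I × I → ℝ}
    (hae : ∀ᵐ z : I × I, h z.1 z.2 = f (γ z.1, γ z.2))
    (hs : ((volume : Measure I).map γ).support.encard ≤ 3) : AtMostPodes 3 h := by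
  set ν := (volume : Measure I).map γ with hν
  set S := ν.support with hS
  have hfin : S.Finite := Set.finite_of_encard_le_coe hs
  have : Fintype S := hfin.fintype
  have hcard : Fintype.card S ≤ Fintype.card (Fin 3) := by
    have h1 := hfin.encard_eq_coe_toFinset_card
    rw [h1] at hs
    have h2 : hfin.toFinset.card ≤ 3 := by exact_mod_cast hs
    rw [Fintype.card_fin]
    rw [← Set.toFinset_card]
    convert h2 using 2
    ext y
    simp
  obtain ⟨e⟩ := Function.Embedding.nonempty_of_card_le hcard
  set w : Fin 3 → I := Function.extend e (fun s => (s : I)) (fun _ => 0) with hw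
  have hwe : ∀ s : S, w (e s) = s := fun s => e.injective.extend_apply _ _ s
  set F : I → Fin 3 := fun y => if y = w 0 then 0 else if y = w 1 then 1 else 2 with hF
  have hFm : Measurable F := by
    refine Measurable.ite (measurableSet_singleton (w 0)) measurable_const ?_
    exact Measurable.ite (measurableSet_singleton (w 1)) measurable_const measurable_const
  have hFw : ∀ y ∈ S, w (F y) = y := by
    intro y hy
    have h1 := hwe ⟨y, hy⟩
    simp only at h1
    rw [hF]
    simp only
    split_ifs with h0 h2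
    · exact h0.symm
    · exact h2.symm
    · generalize e ⟨y, hy⟩ = i at h1
      fin_cases i
      · exact absurd h1.symm h0
      · exact absurd h1.symm h2
      · exact h1
  have hγS : ∀ᵐ x : I, γ x ∈ S := by
    have h1 : ∀ᵐ y ∂ν, y ∈ S := Measure.support_mem_ae
    exact ae_of_ae_map hγ.aemeasurable h1
  have h1 : ∀ᵐ z : I × I, γ z.1 ∈ S :=
    (Measure.quasiMeasurePreserving_fst (μ := (volume : Measure I))
      (ν := (volume : Measure I))).ae hγS
  have h2 : ∀ᵐ z : I × I, γ z.2 ∈ S :=
    (Measure.quasiMeasurePreserving_snd (μ := (volume : Measure I))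
      (ν := (volume : Measure I))).ae hγS
  refine ⟨F ∘ γ, hFm.comp hγ, fun i j => f (w i, w j), ?_⟩
  filter_upwards [hae, h1, h2] with z hz hz1 hz2
  rw [hz]
  simp only [Function.comp]
  rw [hFw _ hz1, hFw _ hz2]

/-- The case of nonpositive `β`. -/
lemma uniform_of_nonpos (hp : 1 ≤ p) (hβ : β ≤ 0) {ε : ℝ} (h0 : 0 < ε) (h1 : ε < 1)
    {h : I → I → ℝ} (hopt : IsOptimizer p ε β h) : ∀ᵐ z : I × I, h z.1 z.2 = ε := by
  obtain ⟨hh, hed, hmax⟩ := hopt
  obtain ⟨t0, ht0⟩ := exists_sigmoid_eq h0 h1
  have hk : IsGraphon fun _ _ : I => ε :=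
    ⟨measurable_const, fun _ _ => rfl, fun _ _ => h0.le, fun _ _ => h1.le⟩
  have hF := hmax _ hk (by simp [edgeDensity])
  have hFk : freeEnergy p β (fun _ _ : I => ε) = β * ε ^ p - (1 / 2) * ent ε := by
    simp [freeEnergy, deg]
  rw [hFk] at hF
  have hdeg : ∫ x : I, deg h x = ε := by
    have := hh.integral_mul_deg (f := fun _ => 1) measurable_const (K := 1) (by simp)
    simp only [one_mul] at this
    rw [this, integral_const_mul, ← hed]
    unfold edgeDensity
    ring
  have ipow : Integrable fun x : I => deg h x ^ p :=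
    integrable_of_abs_le (hh.measurable_deg.pow_const p) (M := 1) fun x => by
      rw [abs_of_nonneg (pow_nonneg (hh.deg_nonneg x) _)]
      exact pow_le_one₀ (hh.deg_nonneg x) (hh.deg_le_one x)
  have ideg : Integrable fun x : I => deg h x :=
    integrable_of_abs_le hh.measurable_deg (M := 1) fun x => by
      rw [abs_of_nonneg (hh.deg_nonneg x)]
      exact hh.deg_le_one x
  have hpow : ε ^ p ≤ ∫ x : I, deg h x ^ p := by
    have i0 : Integrable fun x : I => (p * ε ^ (p - 1)) * (deg h x - ε) :=
      (ideg.sub (integrable_const _)).const_mul _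
    have i1 : Integrable fun x : I => ε ^ p + (p * ε ^ (p - 1)) * (deg h x - ε) :=
      (integrable_const _).add i0
    have := integral_mono i1 ipow fun x => pow_tangent p hp (hh.deg_nonneg x) h0.le
    rw [integral_add (integrable_const _) i0,
      integral_const_mul, integral_sub ideg (integrable_const _), hdeg] at this
    simpa using this
  have hβpow : β * (∫ x : I, deg h x ^ p) ≤ β * ε ^ p := mul_le_mul_of_nonpos_left hpow hβ
  have hent : (∫ z : I × I, ent (h z.1 z.2)) ≤ ent ε := by
    unfold freeEnergy at hF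
    linarith
  set fn : I × I → ℝ := fun z => L t0 - (t0 * h z.1 z.2 - ent (h z.1 z.2)) with hfn
  have hfn0 : ∀ z, 0 ≤ fn z := fun z => sub_nonneg.2 (fenchel (hh.nonneg _ _) (hh.le_one _ _) _)
  have i2 : Integrable fun z : I × I => t0 * h z.1 z.2 - ent (h z.1 z.2) :=
    (hh.integrable.const_mul t0).sub hh.integrable_ent
  have ifn : Integrable fn := (integrable_const _).sub i2
  have hval : ∫ z : I × I, fn z = L t0 - (t0 * ε - ∫ z : I × I, ent (h z.1 z.2)) := by
    rw [hfn, integral_sub (integrable_const _) i2,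
      integral_sub (hh.integrable.const_mul t0) hh.integrable_ent, integral_const_mul]
    have : ∫ z : I × I, h z.1 z.2 = ε := hed
    rw [this]
    simp
  have hle : ∫ z : I × I, fn z ≤ 0 := by
    rw [hval]
    have := fenchel_sigmoid t0
    rw [ht0] at this
    linarith
  have hz := (integral_eq_zero_iff_of_nonneg hfn0 ifn).1 (le_antisymm hle (integral_nonneg hfn0))
  filter_upwards [hz] with z hz
  have hz' : L t0 - (t0 * h z.1 z.2 - ent (h z.1 z.2)) = 0 := hz
  rw [← ht0]
  exact fenchel_eq (hh.nonneg _ _) (hh.le_one _ _) (by linarith)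

/-- Every optimizing graphon of the constrained p-star model has at most three podes. -/
theorem at_most_three (p : ℕ) (hp : 2 ≤ p) (ε : ℝ) (h0 : 0 < ε) (h1 : ε < 1) (β : ℝ)
    (h : I → I → ℝ) (hopt : IsOptimizer p ε β h) : AtMostPodes 3 h := by
  rcases le_or_gt β 0 with hβ | hβ
  · refine ⟨fun _ => 0, measurable_const, fun _ _ => ε, ?_⟩
    exact uniform_of_nonpos (by omega) hβ h0 h1 hopt
  · obtain ⟨γ, lam, C, hγ, -, hC, hae, hε, KEY⟩ := key_law (by omega) hβ.le h0 h1 hopt
    have : IsProbabilityMeasure ((volume : Measure I).map γ) :=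
      Measure.isProbabilityMeasure_map hγ.aemeasurable
    exact podes_of_support hγ (f := fun w => sigmoid (arg p β lam w)) hae
      (support_encard_le hp hβ _ hC hε KEY)

end Pool.Agent.helper26.PS
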