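import Pool.Agent.helper26.PS.EL

/-!
The Euler-Lagrange equation of an optimizer and the comparison inequality for laws.
-/

namespace Pool.Agent.helper26.PS

open MeasureTheory Real
open scoped unitInterval

variable {p : ℕ} {β : ℝ}

lemma measurable_arg_comp {γ : I → I} (hγ : Measurable γ) (lam : ℝ) :
    Measurable fun z : I × I => arg p β lam (γ z.1, γ z.2) := by
  have h1 : Measurable fun z : I × I => (γ z.1, γ z.2) :=
    (hγ.comp measurable_fst).prodMk (hγ.comp measurable_snd)
  exact (continuous_arg p β lam).measurable.comp h1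

lemma integrable_comp {γ : I → I} (hγ : Measurable γ) (lam : ℝ) :
    Integrable (fun z : I × I => comp p β γ lam z.1 z.2) :=
  (comp_isGraphon hγ lam).integrable

lemma continuous_edge {γ : I → I} (hγ : Measurable γ) :
    Continuous fun lam : ℝ => edgeDensity (comp p β γ lam) := by
  unfold edgeDensity
  refine continuous_of_dominated (bound := fun _ => 1) (fun lam => ?_) (fun lam => ?_)
    (integrable_const _) ?_
  · exact (comp_isGraphon hγ lam).meas.aestronglyMeasurable
  · exact Filter.Eventually.of_forall fun z => by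
      simpa using (comp_isGraphon (p := p) (β := β) hγ lam).abs_le z.1 z.2
  · refine Filter.Eventually.of_forall fun z => ?_
    unfold comp arg
    exact continuous_sigmoid.comp (by fun_prop)

lemma exists_sigmoid_eq {ε : ℝ} (h0 : 0 < ε) (h1 : ε < 1) : ∃ t : ℝ, sigmoid t = ε := by
  refine ⟨-Real.log ((1 - ε) / ε), ?_⟩
  have : 0 < (1 - ε) / ε := div_pos (by linarith) h0
  rw [sigmoid_def, neg_neg, exp_log this]
  field_simp
  ring

lemma arg_bounds (hβ : 0 ≤ β) (lam : ℝ) (z : I × I) :
    -(2 * (β * p)) + 2 * lam ≤ arg p β lam z ∧ arg p β lam z ≤ 2 * (β * p) + 2 * lam := by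
  unfold arg
  have a := abs_le.1 (pot_abs_le p β hβ z.1)
  have b := abs_le.1 (pot_abs_le p β hβ z.2)
  constructor <;> linarith [a.1, a.2, b.1, b.2]

/-- there is a multiplier that gives the prescribed edge density, with a bound not depending on
the function `γ`. -/
lemma exists_mult (hβ : 0 ≤ β) {ε t0 : ℝ} (ht : sigmoid t0 = ε) {γ : I → I} (hγ : Measurable γ) :
    ∃ lam : ℝ, |lam| ≤ β * p + |t0| / 2 ∧ edgeDensity (comp p β γ lam) = ε := by
  set B := β * p with hB
  have hB0 : 0 ≤ B := by positivity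
  set l1 := t0 / 2 - B with hl1
  set l2 := t0 / 2 + B with hl2
  have e1 : edgeDensity (comp p β γ l1) ≤ ε := by
    have h := integral_mono (integrable_comp (p := p) (β := β) hγ l1) (integrable_const ε)
      fun z : I × I => by
        have := (arg_bounds (p := p) hβ l1 (γ z.1, γ z.2)).2
        have h2 : arg p β l1 (γ z.1, γ z.2) ≤ t0 := by
          refine this.trans ?_
          rw [hl1]; linarith
        change sigmoid _ ≤ ε
        rw [← ht]
        exact sigmoid_le h2
    simpa [edgeDensity] using h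
  have e2 : ε ≤ edgeDensity (comp p β γ l2) := by
    have h := integral_mono (integrable_const ε) (integrable_comp (p := p) (β := β) hγ l2)
      fun z : I × I => by
        have := (arg_bounds (p := p) hβ l2 (γ z.1, γ z.2)).1
        have h2 : t0 ≤ arg p β l2 (γ z.1, γ z.2) := by
          refine le_trans ?_ this
          rw [hl2]; linarith
        change ε ≤ sigmoid _
        rw [← ht]
        exact sigmoid_le h2
    simpa [edgeDensity] using h
  have hle : l1 ≤ l2 := by rw [hl1, hl2]; linarith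
  obtain ⟨lam, hlam, heq⟩ := intermediate_value_Icc hle
    (continuous_edge (p := p) (β := β) hγ).continuousOn ⟨e1, e2⟩
  refine ⟨lam, ?_, heq⟩
  have a := le_abs_self t0
  have b := neg_abs_le t0
  rw [abs_le]
  constructor
  · have := hlam.1
    rw [hl1] at this; linarith
  · have := hlam.2
    rw [hl2] at this; linarith

lemma edge_growth (hβ : 0 ≤ β) {γ : I → I} (hγ : Measurable γ) {Λ l1 l2 : ℝ} (h12 : l1 ≤ l2)
    (h1 : |l1| ≤ Λ) (h2 : |l2| ≤ Λ) :
    sigmoid (-(2 * (β * p) + 2 * Λ)) * sigmoid (-(2 * (β * p) + 2 * Λ)) * (2 * (l2 - l1)) ≤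
      edgeDensity (comp p β γ l2) - edgeDensity (comp p β γ l1) := by
  unfold edgeDensity
  rw [← integral_sub (integrable_comp hγ l2) (integrable_comp hγ l1)]
  have h := integral_mono (integrable_const (μ := (volume : Measure (I × I)))
    (sigmoid (-(2 * (β * p) + 2 * Λ)) * sigmoid (-(2 * (β * p) + 2 * Λ)) * (2 * (l2 - l1))))
    ((integrable_comp (p := p) (β := β) hγ l2).sub (integrable_comp hγ l1)) fun z : I × I => by
      have a1 : |arg p β l1 (γ z.1, γ z.2)| ≤ 2 * (β * p) + 2 * Λ :=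
        (arg_abs_le p β hβ l1 _).trans (by linarith)
      have a2 : |arg p β l1 (γ z.1, γ z.2) + 2 * (l2 - l1)| ≤ 2 * (β * p) + 2 * Λ := by
        have e : arg p β l1 (γ z.1, γ z.2) + 2 * (l2 - l1) = arg p β l2 (γ z.1, γ z.2) := by
          unfold arg; ring
        rw [e]
        exact (arg_abs_le p β hβ l2 _).trans (by linarith)
      have g := sigmoid_growth' a1 a2 (by linarith)
      have e : arg p β l1 (γ z.1, γ z.2) + 2 * (l2 - l1) = arg p β l2 (γ z.1, γ z.2) := by
        unfold arg; ring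
      rw [e] at g
      exact g
  simpa using h

/-- `val` is convex in the multiplier. -/
lemma val_tangent (hβ : 0 ≤ β) (ε : ℝ) {γ : I → I} (hγ : Measurable γ) (l1 l2 : ℝ) :
    val p β ε γ l1 + (l2 - l1) * (edgeDensity (comp p β γ l1) - ε) ≤ val p β ε γ l2 := by
  have i1 := integrable_L_arg (p := p) hβ hγ l1
  have i2 := integrable_L_arg (p := p) hβ hγ l2
  have i3 := (integrable_comp (p := p) (β := β) hγ l1).const_mul (2 * (l2 - l1))
  have h := integral_mono (i1.add i3) i2 fun z : I × I => by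
    have t := L_tangent (arg p β l1 (γ z.1, γ z.2)) (2 * (l2 - l1))
    have e : arg p β l1 (γ z.1, γ z.2) + 2 * (l2 - l1) = arg p β l2 (γ z.1, γ z.2) := by
      unfold arg; ring
    rw [e] at t
    exact t
  have h' : (∫ z : I × I, L (arg p β l1 (γ z.1, γ z.2))) +
      2 * (l2 - l1) * edgeDensity (comp p β γ l1) ≤ ∫ z : I × I, L (arg p β l2 (γ z.1, γ z.2)) := by
    have e := integral_add i1 i3
    rw [integral_const_mul] at e
    unfold edgeDensity
    rw [← e]
    exact h
  unfold val
  linarith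

/-- The Euler-Lagrange equation and the comparison inequality. -/
theorem key (hp : 1 ≤ p) (hβ : 0 ≤ β) {ε : ℝ} (h0 : 0 < ε) (h1 : ε < 1) {h : I → I → ℝ}
    (hopt : IsOptimizer p ε β h) :
    ∃ (γ : I → I) (lam C : ℝ), Measurable γ ∧ (∀ x, (γ x : ℝ) = deg h x) ∧ 0 ≤ C ∧
      (∀ᵐ z : I × I, h z.1 z.2 = sigmoid (arg p β lam (γ z.1, γ z.2))) ∧
      edgeDensity (comp p β γ lam) = ε ∧
      ∀ γ' : I → I, Measurable γ' →
        (1 / 2) * (∫ z : I × I, L (arg p β lam (γ' z.1, γ' z.2)))
          - (∫ x : I, ((p : ℝ) - 1) * β * (γ' x : ℝ) ^ p) ≤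
        (1 / 2) * (∫ z : I × I, L (arg p β lam (γ z.1, γ z.2)))
          - (∫ x : I, ((p : ℝ) - 1) * β * (γ x : ℝ) ^ p)
          + C * (edgeDensity (comp p β γ' lam) - ε) ^ 2 := by
  obtain ⟨hh, hed, hmax⟩ := hopt
  obtain ⟨t0, ht0⟩ := exists_sigmoid_eq h0 h1
  set γ : I → I := fun x => ⟨deg h x, hh.deg_nonneg x, hh.deg_le_one x⟩ with hγdef
  have hγ : Measurable γ := hh.measurable_deg.subtype_mk
  have hγh : ∀ x, (γ x : ℝ) = deg h x := fun x => rfl
  set Λ := β * p + |t0| / 2 with hΛ
  obtain ⟨lam, hlam, hlε⟩ := exists_mult (p := p) hβ ht0 hγ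
  have hF1 := hmax _ (comp_isGraphon hγ lam) hlε
  have hF2 := le_freeEnergy hp hβ hγ lam
  rw [hlε] at hF2
  have hF3 := freeEnergy_eq hp hβ hh hγ hγh lam
  rw [hed] at hF3
  set fn : I × I → ℝ := fun z => (L (arg p β lam (γ z.1, γ z.2)) -
        (arg p β lam (γ z.1, γ z.2) * h z.1 z.2 - ent (h z.1 z.2))) with hfn
  have hfn0 : ∀ z, 0 ≤ fn z := fun z => sub_nonneg.2 (fenchel (hh.nonneg _ _) (hh.le_one _ _) _)
  have hfnle : ∫ z : I × I, fn z ≤ 0 := by linarith
  have hfnz : ∫ z : I × I, fn z = 0 := le_antisymm hfnle (integral_nonneg hfn0)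
  have ifn : Integrable fn := by
    have iL := integrable_L_arg (p := p) hβ hγ lam
    have iR : Integrable fun z : I × I =>
        (arg p β lam (γ z.1, γ z.2) * h z.1 z.2 - ent (h z.1 z.2)) := by
      refine Integrable.sub ?_ hh.integrable_ent
      refine integrable_of_abs_le ((measurable_arg_comp hγ lam).mul hh.meas)
        (M := (2 * (β * p) + 2 * |lam|) * 1) fun z => ?_
      rw [abs_mul]
      exact mul_le_mul (arg_abs_le p β hβ lam _) (hh.abs_le _ _) (abs_nonneg _)
        ((abs_nonneg _).trans (arg_abs_le p β hβ lam (γ z.1, γ z.2)))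
    exact iL.sub iR
  have hae := (integral_eq_zero_iff_of_nonneg hfn0 ifn).1 hfnz
  have hFval : freeEnergy p β h = val p β ε γ lam := by rw [hF3, hfnz]; ring
  set c := sigmoid (-(2 * (β * p) + 2 * Λ)) * sigmoid (-(2 * (β * p) + 2 * Λ)) with hc
  have hc0 : 0 < c := mul_pos (sigmoid_pos _) (sigmoid_pos _)
  refine ⟨γ, lam, 1 / (2 * c), hγ, hγh, by positivity, ?_, hlε, ?_⟩
  · filter_upwards [hae] with z hz
    have hz' : fn z = 0 := hz
    rw [hfn] at hz'
    exact fenchel_eq (hh.nonneg _ _) (hh.le_one _ _) (by simp only at hz'; linarith)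
  · intro γ' hγ'
    obtain ⟨lam', hlam', hlε'⟩ := exists_mult (p := p) hβ ht0 hγ'
    have g1 := hmax _ (comp_isGraphon hγ' lam') hlε'
    have g2 := le_freeEnergy hp hβ hγ' lam'
    rw [hlε'] at g2
    have g3 := val_tangent (p := p) hβ ε hγ' lam lam'
    set κ := edgeDensity (comp p β γ' lam) - ε with hκ
    have g4 : -(1 / (2 * c) * κ ^ 2) ≤ (lam' - lam) * κ := by
      have habs : c * (2 * |lam' - lam|) ≤ |κ| := by
        rcases le_total lam lam' with hle | hle
        · have := edge_growth (p := p) hβ hγ' hle hlam hlam'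
          rw [hlε'] at this
          rw [abs_of_nonneg (sub_nonneg.2 hle)]
          refine this.trans ?_
          rw [hκ, abs_sub_comm]
          exact le_abs_self _
        · have := edge_growth (p := p) hβ hγ' hle hlam' hlam
          rw [hlε'] at this
          rw [abs_sub_comm, abs_of_nonneg (sub_nonneg.2 hle)]
          refine this.trans ?_
          exact le_abs_self _
      have h5 : |lam' - lam| ≤ 1 / (2 * c) * |κ| := by
        rw [one_div, inv_mul_eq_div, le_div_iff₀ (by positivity)]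
        linarith
      have h6 : |(lam' - lam) * κ| ≤ 1 / (2 * c) * κ ^ 2 := by
        rw [abs_mul]
        calc |lam' - lam| * |κ| ≤ 1 / (2 * c) * |κ| * |κ| := by gcongr
          _ = 1 / (2 * c) * κ ^ 2 := by rw [mul_assoc, ← sq, sq_abs]
      have := neg_abs_le ((lam' - lam) * κ)
      linarith
    have g5 : val p β ε γ' lam ≤ val p β ε γ lam + 1 / (2 * c) * κ ^ 2 := by
      rw [← hFval]; linarith
    unfold val at g5
    linarith

/-- The same inequality for laws on the unit interval. -/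
theorem key_law (hp : 1 ≤ p) (hβ : 0 ≤ β) {ε : ℝ} (h0 : 0 < ε) (h1 : ε < 1) {h : I → I → ℝ}
    (hopt : IsOptimizer p ε β h) :
    ∃ (γ : I → I) (lam C : ℝ), Measurable γ ∧ (∀ x, (γ x : ℝ) = deg h x) ∧ 0 ≤ C ∧
      (∀ᵐ z : I × I, h z.1 z.2 = sigmoid (arg p β lam (γ z.1, γ z.2))) ∧
      (∫ w, sigmoid (arg p β lam w)
        ∂(((volume : Measure I).map γ).prod ((volume : Measure I).map γ))) = ε ∧
      ∀ ν' : Measure I, IsProbabilityMeasure ν' →
        (1 / 2) * ∫ w, L (arg p β lam w) ∂(ν'.prod ν')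
          - ∫ x, ((p : ℝ) - 1) * β * (x : ℝ) ^ p ∂ν' ≤
        (1 / 2) * ∫ w, L (arg p β lam w)
            ∂(((volume : Measure I).map γ).prod ((volume : Measure I).map γ))
          - ∫ x, ((p : ℝ) - 1) * β * (x : ℝ) ^ p ∂((volume : Measure I).map γ)
          + C * (∫ w, sigmoid (arg p β lam w) ∂(ν'.prod ν') - ε) ^ 2 := by
  obtain ⟨γ, lam, C, hγ, hγh, hC, hae, hε, hk⟩ := key hp hβ h0 h1 hopt
  have tr2 : ∀ (γ' : I → I) (_ : Measurable γ') (f : I × I → ℝ) (_ : Continuous f),
      ∫ w, f w ∂(((volume : Measure I).map γ').prod ((volume : Measure I).map γ')) =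
        ∫ z : I × I, f (γ' z.1, γ' z.2) := by
    intro γ' hγ' f hf
    rw [Measure.map_prod_map _ _ hγ' hγ', integral_map (by fun_prop)
      hf.aestronglyMeasurable]
    rfl
  have tr1 : ∀ (γ' : I → I) (_ : Measurable γ') (f : I → ℝ) (_ : Continuous f),
      ∫ w, f w ∂((volume : Measure I).map γ') = ∫ x : I, f (γ' x) := by
    intro γ' hγ' f hf
    rw [integral_map hγ'.aemeasurable hf.aestronglyMeasurable]
  have cL : Continuous fun w : I × I => L (arg p β lam w) :=
    continuous_L.comp (continuous_arg p β lam)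
  have cS : Continuous fun w : I × I => sigmoid (arg p β lam w) :=
    continuous_sigmoid.comp (continuous_arg p β lam)
  have cP : Continuous fun x : I => ((p : ℝ) - 1) * β * (x : ℝ) ^ p := by fun_prop
  refine ⟨γ, lam, C, hγ, hγh, hC, hae, ?_, ?_⟩
  · rw [tr2 γ hγ _ cS]
    exact hε
  · intro ν' hν'
    obtain ⟨γ', hγ', hmap⟩ := Measure.exists_measurable_map_eq ν'
    rw [← hmap, tr2 γ hγ _ cL, tr1 γ hγ _ cP, tr2 γ' hγ' _ cL, tr1 γ' hγ' _ cP, tr2 γ' hγ' _ cS]
    exact hk γ' hγ'

end Pool.Agent.helper26.PS
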