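import Pool.Agent.helper26.PS.Det

/-!
Integration of the pointwise determinant, and the quadratic form lemma.
-/

namespace Pool.Agent.helper26.PS

open Real MeasureTheory intervalIntegral

lemma hasDerivAt_L (t : ℝ) : HasDerivAt L (sigmoid t) t := by
  unfold L
  have h1 : HasDerivAt (fun t => 1 + exp t) (exp t) t := (Real.hasDerivAt_exp t).const_add 1
  have h2 := h1.log (by positivity)
  convert h2 using 1
  rw [sigmoid_def, exp_neg]
  have := exp_pos t
  field_simp
  ring

lemma int_sigmoid (a b v : ℝ) : ∫ s in a..b, sigmoid (s + v) = L (b + v) - L (a + v) := by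
  have h := intervalIntegral.integral_eq_sub_of_hasDerivAt (f := fun s => L (s + v))
    (f' := fun s => sigmoid (s + v)) (a := a) (b := b) (fun x _ => by
      have := (hasDerivAt_L (x + v)).comp x ((hasDerivAt_id x).add_const v)
      simpa [Function.comp_def] using this)
    ((continuous_sigmoid.comp (continuous_id.add continuous_const)).intervalIntegrable _ _)
  exact h

/-- second difference of `L` -/
noncomputable def Wd (a b u v : ℝ) : ℝ := L (b + v) - L (a + v) - (L (b + u) - L (a + u))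

lemma continuous_rr (u v : ℝ) : Continuous (rr u v) := by
  unfold rr
  exact (continuous_sigmoid.comp (continuous_id.add continuous_const)).sub
    (continuous_sigmoid.comp (continuous_id.add continuous_const))

lemma int_rr (a b u v : ℝ) : ∫ s in a..b, rr u v s = Wd a b u v := by
  unfold rr Wd
  rw [intervalIntegral.integral_sub, int_sigmoid, int_sigmoid]
  · exact (continuous_sigmoid.comp (continuous_id.add continuous_const)).intervalIntegrable _ _
  · exact (continuous_sigmoid.comp (continuous_id.add continuous_const)).intervalIntegrable _ _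

lemma neg_of_lin {f g h : ℝ → ℝ} (hf : Continuous f) (hg : Continuous g) (hh : Continuous h)
    {a b : ℝ} (hab : a < b) (x y z : ℝ)
    (hneg : ∀ s, a < s → s < b → f s * x + g s * y + h s * z < 0) :
    (∫ s in a..b, f s) * x + (∫ s in a..b, g s) * y + (∫ s in a..b, h s) * z < 0 := by
  have e : (∫ s in a..b, f s) * x + (∫ s in a..b, g s) * y + (∫ s in a..b, h s) * z
      = ∫ s in a..b, (f s * x + g s * y + h s * z) := by
    rw [intervalIntegral.integral_add, intervalIntegral.integral_add,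
      intervalIntegral.integral_mul_const, intervalIntegral.integral_mul_const,
      intervalIntegral.integral_mul_const]
    all_goals apply Continuous.intervalIntegrable; fun_prop
  rw [e]
  have hpos : 0 < ∫ s in a..b, (-(f s * x + g s * y + h s * z)) := by
    apply intervalIntegral.intervalIntegral_pos_of_pos_on
    · apply Continuous.intervalIntegrable; fun_prop
    · intro s hs
      have := hneg s hs.1 hs.2
      linarith
    · exact hab
  rw [intervalIntegral.integral_neg] at hpos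
  linarith

lemma det3_W_neg {u1 u2 u3 u4 : ℝ} (h1 : u1 < u2) (h2 : u2 < u3) (h3 : u3 < u4) :
    det3 (Wd u1 u2 u1 u2) (Wd u1 u2 u2 u3) (Wd u1 u2 u3 u4)
      (Wd u2 u3 u1 u2) (Wd u2 u3 u2 u3) (Wd u2 u3 u3 u4)
      (Wd u3 u4 u1 u2) (Wd u3 u4 u2 u3) (Wd u3 u4 u3 u4) < 0 := by
  -- third row
  have s1 : ∀ s t : ℝ, s < t → t ≤ u3 →
      det3 (rr u1 u2 s) (rr u2 u3 s) (rr u3 u4 s)
      (rr u1 u2 t) (rr u2 u3 t) (rr u3 u4 t)
      (Wd u3 u4 u1 u2) (Wd u3 u4 u2 u3) (Wd u3 u4 u3 u4) < 0 := by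
    intro s t hst ht
    have := neg_of_lin (continuous_rr u1 u2) (continuous_rr u2 u3) (continuous_rr u3 u4) h3
      (rr u2 u3 s * rr u3 u4 t - rr u3 u4 s * rr u2 u3 t)
      (-(rr u1 u2 s * rr u3 u4 t - rr u3 u4 s * rr u1 u2 t))
      (rr u1 u2 s * rr u2 u3 t - rr u2 u3 s * rr u1 u2 t) (fun w hw1 hw2 => by
        have h := det3_rr_neg h1 h2 h3 hst (lt_of_le_of_lt ht hw1)
        unfold det3 at h
        linarith)
    rw [int_rr, int_rr, int_rr] at this
    unfold det3
    linarith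
  have s2 : ∀ s : ℝ, s ≤ u2 →
      det3 (rr u1 u2 s) (rr u2 u3 s) (rr u3 u4 s)
      (Wd u2 u3 u1 u2) (Wd u2 u3 u2 u3) (Wd u2 u3 u3 u4)
      (Wd u3 u4 u1 u2) (Wd u3 u4 u2 u3) (Wd u3 u4 u3 u4) < 0 := by
    intro s hs
    have := neg_of_lin (continuous_rr u1 u2) (continuous_rr u2 u3) (continuous_rr u3 u4) h2
      (-(rr u2 u3 s * Wd u3 u4 u3 u4 - rr u3 u4 s * Wd u3 u4 u2 u3))
      (rr u1 u2 s * Wd u3 u4 u3 u4 - rr u3 u4 s * Wd u3 u4 u1 u2)
      (-(rr u1 u2 s * Wd u3 u4 u2 u3 - rr u2 u3 s * Wd u3 u4 u1 u2)) (fun w hw1 hw2 => by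
        have h := s1 s w (lt_of_le_of_lt hs hw1) hw2.le
        unfold det3 at h
        linarith)
    rw [int_rr, int_rr, int_rr] at this
    unfold det3
    linarith
  have := neg_of_lin (continuous_rr u1 u2) (continuous_rr u2 u3) (continuous_rr u3 u4) h1
      (Wd u2 u3 u2 u3 * Wd u3 u4 u3 u4 - Wd u2 u3 u3 u4 * Wd u3 u4 u2 u3)
      (-(Wd u2 u3 u1 u2 * Wd u3 u4 u3 u4 - Wd u2 u3 u3 u4 * Wd u3 u4 u1 u2))
      (Wd u2 u3 u1 u2 * Wd u3 u4 u2 u3 - Wd u2 u3 u2 u3 * Wd u3 u4 u1 u2) (fun w hw1 hw2 => by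
        have h := s2 w hw2.le
        unfold det3 at h
        linarith)
  rw [int_rr, int_rr, int_rr] at this
  unfold det3
  linarith

lemma Wd_self_pos {a b : ℝ} (hab : a < b) : 0 < Wd a b a b := by
  have : 0 < ∫ s in a..b, rr a b s := by
    apply intervalIntegral.intervalIntegral_pos_of_pos_on
    · exact (continuous_rr a b).intervalIntegrable _ _
    · intro s _
      unfold rr
      have : sigmoid (s + a) < sigmoid (s + b) := sigmoid_lt (by linarith)
      linarith
    · exact hab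
  rwa [int_rr] at this

lemma Wd_symm (a b u v : ℝ) : Wd a b u v = Wd u v a b := by
  unfold Wd
  rw [add_comm b v, add_comm a v, add_comm b u, add_comm a u]
  ring

/-- linear algebra: a symmetric 3x3 form with negative determinant and a positive diagonal
entry is positive somewhere on every plane orthogonal to a positive vector -/
lemma plane_pos {A B C D E F w1 w2 w3 : ℝ} (hw2 : 0 < w2)
    (hD : 0 < D) (hdet : det3 A B C B D E C E F < 0) :
    ∃ x y z : ℝ, w1 * x + w2 * y + w3 * z = 0 ∧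
      0 < A * x ^ 2 + D * y ^ 2 + F * z ^ 2 + 2 * B * x * y + 2 * C * x * z + 2 * E * y * z := by
  by_contra hcon
  push Not at hcon
  set P : ℝ := A * w2 ^ 2 + D * w1 ^ 2 - 2 * B * w2 * w1 with hP
  set Q : ℝ := D * w3 ^ 2 + F * w2 ^ 2 - 2 * E * w3 * w2 with hQ
  set b : ℝ := B * w2 * w3 - C * w2 * w2 - D * w1 * w3 + E * w1 * w2 with hb
  have form : ∀ α β : ℝ, P * α ^ 2 + 2 * b * α * β + Q * β ^ 2 ≤ 0 := by
    intro α β
    have h := hcon (α * w2) (-α * w1 + β * w3) (-β * w2) (by ring)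
    rw [hP, hQ, hb]
    linarith
  have hP0 : P ≤ 0 := by have := form 1 0; linarith
  have hQ0 : Q ≤ 0 := by have := form 0 1; linarith
  have hbb : b ^ 2 ≤ P * Q := by
    rcases hP0.lt_or_eq with hlt | heq
    · have h := form b (-P)
      have h2 : P * (P * Q - b ^ 2) ≤ 0 := by linarith
      by_contra hc
      push Not at hc
      nlinarith [mul_pos_of_neg_of_neg hlt (sub_neg.2 hc)]
    · have hb0 : b = 0 := by
        by_contra hne
        have h := form ((1 - Q) / (2 * b)) 1
        rw [heq] at h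
        have : 2 * b * ((1 - Q) / (2 * b)) = 1 - Q := by field_simp
        linarith
      rw [hb0, heq]; simp
  set c1 : ℝ := B * w2 - D * w1 with hc1
  set c2 : ℝ := D * w3 - E * w2 with hc2
  have idd : D * (P * Q - b ^ 2) - (c1 ^ 2 * Q - 2 * b * c1 * c2 + c2 ^ 2 * P)
      = w2 ^ 4 * det3 A B C B D E C E F := by
    rw [hP, hQ, hb, hc1, hc2]
    unfold det3
    ring
  have hneg : w2 ^ 4 * det3 A B C B D E C E F < 0 := mul_neg_of_pos_of_neg (by positivity) hdet
  have h1 : 0 ≤ D * (P * Q - b ^ 2) := mul_nonneg hD.le (by linarith)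
  have h2 := form c2 (-c1)
  have h3 : c1 ^ 2 * Q - 2 * b * c1 * c2 + c2 ^ 2 * P ≤ 0 := by linarith
  linarith

/-- Main finite dimensional lemma. -/
theorem exists_exchange {u1 u2 u3 u4 g1 g2 g3 g4 : ℝ} (h1 : u1 < u2) (h2 : u2 < u3)
    (h3 : u3 < u4) (k2 : g2 < g3) :
    ∃ a : Fin 4 → ℝ, ∑ i, a i = 0 ∧ ∑ i, a i * ![g1, g2, g3, g4] i = 0 ∧
      0 < ∑ i, ∑ j, a i * a j * L (![u1, u2, u3, u4] i + ![u1, u2, u3, u4] j) := by
  have hdet := det3_W_neg h1 h2 h3
  rw [Wd_symm u2 u3 u1 u2, Wd_symm u3 u4 u1 u2, Wd_symm u3 u4 u2 u3] at hdet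
  obtain ⟨x, y, z, hxyz, hpos⟩ := plane_pos (w1 := g2 - g1) (w2 := g3 - g2) (w3 := g4 - g3)
    (by linarith) (Wd_self_pos h2) hdet
  refine ⟨![-x, x - y, y - z, z], ?_, ?_, ?_⟩
  · simp [Fin.sum_univ_four]
    ring
  · simp only [Fin.sum_univ_four, Matrix.cons_val_zero, Matrix.cons_val_one, Matrix.cons_val]
    linarith
  · simp only [Fin.sum_univ_four, Matrix.cons_val_zero, Matrix.cons_val_one, Matrix.cons_val]
    have e : ∀ a b : ℝ, L (a + b) = L (b + a) := fun a b => by rw [add_comm]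
    unfold Wd at hpos
    rw [e u2 u1, e u3 u1, e u4 u1, e u3 u2, e u4 u2, e u4 u3] at *
    nlinarith [hpos]

end Pool.Agent.helper26.PS
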