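import Pool.Agent.helper26.PS.Defs

/-!
Scalar facts for the constrained p-star model: the function L(t) = log(1+e^t), the entropy
ent(q) = q log q + (1-q) log(1-q), the Fenchel inequality between them and elementary bounds
for the logistic function.
-/

namespace Pool.Agent.helper26.PS

open Real

/-- `log (1 + e^t)`. -/
noncomputable def L (t : ℝ) : ℝ := Real.log (1 + Real.exp t)

lemma one_sub_sigmoid (t : ℝ) : 1 - sigmoid t = (1 + exp t)⁻¹ := by
  have h := sigmoid_neg t
  rw [sigmoid_def] at h
  simp only [neg_neg] at h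
  exact h.symm

lemma log_one_sub_sigmoid (t : ℝ) : Real.log (1 - sigmoid t) = - L t := by
  rw [one_sub_sigmoid, Real.log_inv, L]

lemma log_sigmoid (t : ℝ) : Real.log (sigmoid t) = t - L t := by
  have h := sigmoid_mul_rexp_neg t
  have h2 : Real.log (sigmoid t * exp (-t)) = Real.log (sigmoid (-t)) := by rw [h]
  rw [Real.log_mul (sigmoid_pos t).ne' (exp_pos _).ne', Real.log_exp, sigmoid_neg,
    log_one_sub_sigmoid] at h2
  linarith

lemma gibbs_le {q s : ℝ} (hq : 0 ≤ q) (hs : 0 < s) :
    q * (Real.log s - Real.log q) ≤ s - q := by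
  rcases hq.eq_or_lt with h0 | h0
  · rw [← h0]; simp; exact hs.le
  · have h1 : Real.log s - Real.log q = Real.log (s / q) := by
      rw [Real.log_div hs.ne' h0.ne']
    rw [h1]
    have h2 := Real.log_le_sub_one_of_pos (div_pos hs h0)
    calc q * Real.log (s / q) ≤ q * (s / q - 1) := by gcongr
      _ = s - q := by field_simp

lemma gibbs_lt {q s : ℝ} (hq : 0 ≤ q) (hs : 0 < s) (hne : q ≠ s) :
    q * (Real.log s - Real.log q) < s - q := by
  rcases hq.eq_or_lt with h0 | h0
  · rw [← h0]; simp; exact hs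
  · have h1 : Real.log s - Real.log q = Real.log (s / q) := by
      rw [Real.log_div hs.ne' h0.ne']
    rw [h1]
    have h3 : s / q ≠ 1 := by
      intro h
      rw [div_eq_one_iff_eq h0.ne'] at h
      exact hne h.symm
    have h2 := Real.log_lt_sub_one_of_pos (div_pos hs h0) h3
    calc q * Real.log (s / q) < q * (s / q - 1) := by gcongr
      _ = s - q := by field_simp

lemma fenchel_aux (q t : ℝ) : t * q - ent q - L t =
    q * (Real.log (sigmoid t) - Real.log q)
      + (1 - q) * (Real.log (1 - sigmoid t) - Real.log (1 - q)) := by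
  rw [log_sigmoid, log_one_sub_sigmoid, ent]; ring

/-- Fenchel inequality. -/
lemma fenchel {q : ℝ} (h0 : 0 ≤ q) (h1 : q ≤ 1) (t : ℝ) : t * q - ent q ≤ L t := by
  have e := fenchel_aux q t
  have a := gibbs_le h0 (sigmoid_pos t)
  have b := gibbs_le (sub_nonneg.2 h1) (sub_pos.2 (sigmoid_lt_one t))
  linarith

/-- Equality case of the Fenchel inequality. -/
lemma fenchel_eq {q : ℝ} (h0 : 0 ≤ q) (h1 : q ≤ 1) {t : ℝ} (h : t * q - ent q = L t) :
    q = sigmoid t := by
  by_contra hne
  have e := fenchel_aux q t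
  have a := gibbs_lt h0 (sigmoid_pos t) hne
  have b := gibbs_le (sub_nonneg.2 h1) (sub_pos.2 (sigmoid_lt_one t))
  linarith

lemma fenchel_sigmoid (t : ℝ) : t * sigmoid t - ent (sigmoid t) = L t := by
  have e := fenchel_aux (sigmoid t) t
  simp only [sub_self, mul_zero, add_zero] at e
  linarith

/-- `L` lies above its tangents. -/
lemma L_tangent (t d : ℝ) : L t + d * sigmoid t ≤ L (t + d) := by
  have h := fenchel (sigmoid_nonneg t) (sigmoid_le_one t) (t + d)
  have e := fenchel_sigmoid t
  linarith [h, e, add_mul t d (sigmoid t)]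

lemma L_pos (t : ℝ) : 0 < L t := by
  unfold L
  exact Real.log_pos (by linarith [exp_pos t])

lemma continuous_L : Continuous L := by
  unfold L
  exact Continuous.log (by fun_prop) (fun t => by positivity)

lemma L_mono : Monotone L := by
  intro a b h
  unfold L
  apply Real.log_le_log (by positivity)
  gcongr

lemma sigmoid_diff (t d : ℝ) :
    sigmoid (t + d) - sigmoid t = (exp d - 1) * sigmoid t * (1 - sigmoid (t + d)) := by
  rw [one_sub_sigmoid, sigmoid_def, sigmoid_def]
  have e1 : exp (-(t + d)) = (exp t * exp d)⁻¹ := by rw [exp_neg, exp_add]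
  have e2 : exp (-t) = (exp t)⁻¹ := exp_neg t
  have e3 : exp (t + d) = exp t * exp d := exp_add t d
  rw [e1, e2, e3]
  have p1 := exp_pos t
  have p2 := exp_pos d
  field_simp
  ring

/-- Growth of the logistic function on a bounded interval. -/
lemma sigmoid_growth {T t d : ℝ} (hT : |t| ≤ T) (hd0 : 0 ≤ d) (hd1 : d ≤ 1) :
    sigmoid (-T) * sigmoid (-(T + 1)) * d ≤ sigmoid (t + d) - sigmoid t := by
  rw [sigmoid_diff]
  have h1 : sigmoid (-T) ≤ sigmoid t := sigmoid_le (by linarith [neg_abs_le t])
  have h2 : sigmoid (-(T + 1)) ≤ 1 - sigmoid (t + d) := by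
    rw [← sigmoid_neg]
    exact sigmoid_le (by linarith [le_abs_self t])
  have h3 : d ≤ exp d - 1 := by linarith [add_one_le_exp d]
  have p1 := sigmoid_pos (-T)
  have p2 := sigmoid_pos (-(T + 1))
  have p3 := sigmoid_pos t
  calc sigmoid (-T) * sigmoid (-(T + 1)) * d
      ≤ sigmoid t * (1 - sigmoid (t + d)) * (exp d - 1) := by
        gcongr
        · exact mul_nonneg p3.le (p2.le.trans h2)
    _ = (exp d - 1) * sigmoid t * (1 - sigmoid (t + d)) := by ring

/-- Growth of the logistic function on a symmetric interval. -/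
lemma sigmoid_growth' {T t d : ℝ} (hT : |t| ≤ T) (hT' : |t + d| ≤ T) (hd0 : 0 ≤ d) :
    sigmoid (-T) * sigmoid (-T) * d ≤ sigmoid (t + d) - sigmoid t := by
  rw [sigmoid_diff]
  have h1 : sigmoid (-T) ≤ sigmoid t := sigmoid_le (by linarith [neg_abs_le t])
  have h2 : sigmoid (-T) ≤ 1 - sigmoid (t + d) := by
    rw [← sigmoid_neg]
    exact sigmoid_le (by linarith [le_abs_self (t + d)])
  have h3 : d ≤ exp d - 1 := by linarith [add_one_le_exp d]
  have p1 := sigmoid_pos (-T)
  have p3 := sigmoid_pos t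
  calc sigmoid (-T) * sigmoid (-T) * d
      ≤ sigmoid t * (1 - sigmoid (t + d)) * (exp d - 1) := by
        gcongr
        exact mul_nonneg p3.le (p1.le.trans h2)
    _ = (exp d - 1) * sigmoid t * (1 - sigmoid (t + d)) := by ring

/-- tangent inequality for powers -/
lemma pow_tangent (p : ℕ) (hp : 1 ≤ p) {a b : ℝ} (ha : 0 ≤ a) (hb : 0 ≤ b) :
    b ^ p + p * b ^ (p - 1) * (a - b) ≤ a ^ p := by
  induction p, hp using Nat.le_induction with
  | base => simp
  | succ n hn ih =>
    have ih' := ih
    have h1 : b ^ n * (b + n * (a - b)) ≤ a ^ n * b := by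
      have : b ^ n = b ^ (n - 1) * b := by
        rw [← pow_succ, Nat.sub_add_cancel hn]
      have h2 : (b ^ n + n * b ^ (n - 1) * (a - b)) * b ≤ a ^ n * b :=
        mul_le_mul_of_nonneg_right ih' hb
      calc b ^ n * (b + n * (a - b)) = (b ^ n + n * b ^ (n - 1) * (a - b)) * b := by
            rw [this]; ring
        _ ≤ _ := h2
    have h3 : a ^ (n + 1) - b ^ (n + 1) - (n + 1) * b ^ n * (a - b)
        = (a ^ n - b ^ n) * (a - b) + (a ^ n * b - b ^ n * (b + n * (a - b))) := by ring
    have h4 : 0 ≤ (a ^ n - b ^ n) * (a - b) := by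
      rcases le_total a b with h | h
      · have : a ^ n ≤ b ^ n := pow_le_pow_left₀ ha h n
        nlinarith
      · have : b ^ n ≤ a ^ n := pow_le_pow_left₀ hb h n
        nlinarith
    push_cast
    linarith

end Pool.Agent.helper26.PS
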